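import Pool.Agent.Lib_helper97.K2P.Defs

/-!
# K2P, block P1: `F' = t G` for an even Schwartz function (helper97)
-/

set_option autoImplicit false

open scoped FourierTransform SchwartzMap ContDiff

namespace Pool.Agent.K2P

open Complex MeasureTheory

/-- an odd Schwartz function is the derivative of an even one -/
theorem P1_prim (m : 𝓢(ℝ, ℂ)) (hm : ∀ t, m (-t) = - m t) :
    ∃ M : 𝓢(ℝ, ℂ), (∀ t, M (-t) = M t) ∧ ∀ t, HasDerivAt M (m t) t := by
  have hmi : Integrable (fun v => m v) := m.integrable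
  set c : ℂ := ∫ v in Set.Ioi (0 : ℝ), m v with hc
  set M0 : ℝ → ℂ := fun u => (∫ v in (0 : ℝ)..u, m v) - c with hM0
  have hder : ∀ u, HasDerivAt M0 (m u) u := by
    intro u
    have := intervalIntegral.integral_hasDerivAt_right (a := 0) (b := u)
      (hmi.intervalIntegrable) (m.continuous.stronglyMeasurableAtFilter _ _)
      m.continuous.continuousAt
    exact this.sub_const c
  have hev : ∀ u, M0 (-u) = M0 u := by
    intro u
    have h1 : ∫ v in (0 : ℝ)..(-u), m v = ∫ v in (0 : ℝ)..u, m v := by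
      have h2 := intervalIntegral.integral_comp_neg (a := 0) (b := u) (fun v => m v)
      simp only [neg_zero, hm] at h2
      rw [intervalIntegral.integral_neg] at h2
      rw [intervalIntegral.integral_symm, ← h2, neg_neg]
    simp only [hM0, h1]
  have hpos : ∀ u, 0 ≤ u → M0 u = - ∫ v in Set.Ioi u, m v := by
    intro u hu
    have := intervalIntegral.integral_interval_add_Ioi (a := 0) (b := u) (f := fun v => m v)
      (hmi.integrableOn) (hmi.integrableOn)
    simp only [hM0, hc]
    rw [← this]; ring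
  have hdec : ∀ k : ℕ, ∃ C : ℝ, ∀ u, ‖u‖ ^ k * ‖M0 u‖ ≤ C := by
    intro k
    refine ⟨∫ v, ‖v‖ ^ k * ‖m v‖, ?_⟩
    have hint := m.integrable_pow_mul volume k
    have key : ∀ u, 0 ≤ u → ‖u‖ ^ k * ‖M0 u‖ ≤ ∫ v, ‖v‖ ^ k * ‖m v‖ := by
      intro u hu
      rw [hpos u hu, norm_neg]
      calc ‖u‖ ^ k * ‖∫ v in Set.Ioi u, m v‖ ≤ ‖u‖ ^ k * ∫ v in Set.Ioi u, ‖m v‖ := by
            gcongr
            exact norm_integral_le_integral_norm _
        _ = ∫ v in Set.Ioi u, ‖u‖ ^ k * ‖m v‖ := (integral_const_mul _ _).symm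
        _ ≤ ∫ v in Set.Ioi u, ‖v‖ ^ k * ‖m v‖ := by
            apply setIntegral_mono_on (hmi.norm.integrableOn.const_mul _) hint.integrableOn
              measurableSet_Ioi
            intro v hv
            have hv' : u < v := hv
            gcongr
            rw [Real.norm_eq_abs, Real.norm_eq_abs, abs_of_nonneg hu, abs_of_nonneg (by linarith)]
            exact hv'.le
        _ ≤ ∫ v, ‖v‖ ^ k * ‖m v‖ :=
            setIntegral_le_integral hint (Filter.Eventually.of_forall fun v => by positivity)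
    intro u
    rcases le_total 0 u with hu | hu
    · exact key u hu
    · have := key (-u) (by linarith)
      rw [hev, norm_neg] at this
      exact this
  have hd : deriv M0 = m := funext fun u => (hder u).deriv
  refine ⟨⟨M0, ?_, ?_⟩, hev, hder⟩
  · rw [contDiff_infty_iff_deriv]
    refine ⟨fun u => (hder u).differentiableAt, ?_⟩
    rw [hd]
    exact m.smooth'
  · intro k n
    rcases n with _ | n
    · obtain ⟨C, hC⟩ := hdec k
      exact ⟨C, fun u => by rw [norm_iteratedFDeriv_zero]; exact hC u⟩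
    · obtain ⟨C, hC⟩ := m.decay' k n
      refine ⟨C, fun u => ?_⟩
      have := hC u
      rw [norm_iteratedFDeriv_eq_norm_iteratedDeriv] at this ⊢
      rw [iteratedDeriv_succ', hd]
      exact this

theorem P1_neg (g : ℝ → ℂ) (t : ℝ) : 𝓕 g (-t) = 𝓕 (fun x => g (-x)) t := by
  have := Real.fourier_comp_linearIsometry (LinearIsometryEquiv.neg ℝ : ℝ ≃ₗᵢ[ℝ] ℝ) g t
  simp only [LinearIsometryEquiv.coe_neg] at this
  rw [← this]
  rfl

theorem P_div (F : 𝓢(ℝ, ℂ)) (hF : ∀ t, F (-t) = F t) :
    ∃ G : 𝓢(ℝ, ℂ), (∀ t, G (-t) = G t) ∧ ∀ t : ℝ, HasDerivAt F ((t : ℂ) * G t) t := by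
  set F' : 𝓢(ℝ, ℂ) := SchwartzMap.derivCLM ℂ ℂ F with hF'
  have hF'e : ∀ t, F' t = deriv F t := fun t => rfl
  have hdF : ∀ t, HasDerivAt F (F' t) t := fun t => by
    rw [hF'e]; exact (F.differentiable t).hasDerivAt
  have hodd : ∀ t, F' (-t) = - F' t := by
    intro t
    have h1 : HasDerivAt (fun x => F (-x)) (-(F' (-t))) t := by
      have h0 := (hdF (-t)).scomp t (hasDerivAt_neg t)
      rw [neg_one_smul] at h0
      exact h0
    have h2 : (fun x => F (-x)) = F := funext hF
    rw [h2] at h1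
    have := h1.unique (hdF t)
    rw [← this, neg_neg]
  set N : 𝓢(ℝ, ℂ) := 𝓕⁻ F' with hN
  have hNe : ∀ t, N t = 𝓕 (F' : ℝ → ℂ) (-t) := by
    intro t
    rw [hN, SchwartzMap.fourierInv_coe]
    exact Real.fourierInv_eq_fourier_neg _ _
  have hNodd : ∀ t, N (-t) = - N t := by
    intro t
    rw [hNe, hNe, P1_neg (F' : ℝ → ℂ) t, neg_neg]
    have : (fun x => F' (-x)) = fun x => - F' x := funext hodd
    rw [this, Real.fourier_eq', Real.fourier_eq', ← integral_neg]
    congr 1
    funext v
    simp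
  obtain ⟨M, hM, hMd⟩ := P1_prim N hNodd
  have hFN : ∀ t, (𝓕 (N : ℝ → ℂ)) t = F' t := by
    intro t
    have h1 : 𝓕 N = F' := by rw [hN]; exact FourierTransform.fourier_fourierInv_eq F'
    rw [← SchwartzMap.fourier_coe, h1]
  have hdM : deriv M = N := funext fun t => (hMd t).deriv
  have hFM : ∀ t : ℝ, F' t = (t : ℂ) * ((2 * Real.pi * I) * (𝓕 M) t) := by
    intro t
    have h1 := Real.fourier_deriv (f := M) M.integrable M.differentiable
      (by rw [hdM]; exact N.integrable)
    rw [← hFN t, ← hdM, h1, ← SchwartzMap.fourier_coe]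
    simp only [smul_eq_mul]
    ring
  refine ⟨(2 * Real.pi * I : ℂ) • 𝓕 M, ?_, ?_⟩
  · intro t
    simp only [smul_apply]
    rw [SchwartzMap.fourier_coe, P1_neg]
    have : (fun x => M (-x)) = M := funext hM
    rw [this]
  · intro t
    simp only [smul_apply, smul_eq_mul]
    rw [← hFM]
    exact hdF t

end Pool.Agent.K2P
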