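import Pool.Agent.Lib_helper97.K2P.F.P5a

/-!
# K2P, block P5b: the functional of a superposition of Gaussians
`G t = ∫ χ(x) gs (w x) t dx`. Proof: `‖gs w (nd n)‖ = exp(-2π n Im w)`, `‖gs' w t / t‖ ≤ 2π‖w‖‖gs w t‖`;
`∑ (n+1)^A exp(-2π n y) ≤ C (1 + 1/y)^(A+1)`; the hypothesis on `χ` gives everything:
`hasDerivAt_integral_of_dominated_loc_of_deriv_le`, `hasSum_integral_of_summable_integral_norm`
(or `integral_tsum`), and `LL` of one Gaussian is `F w - ee r w` (`gs w (nd n) = exp(2π i n w)`,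
`gs' w (nd n) / (2π i nd n) = w exp(2π i n w)` for `n ≥ 1`, `b 0 = 0`, `√(r²+2)² = r²+2`).
-/

set_option autoImplicit false

open scoped FourierTransform SchwartzMap

namespace Pool.Agent.K2P

open Complex MeasureTheory

theorem P5b_gs_norm (w : ℂ) (t : ℝ) : ‖gs w t‖ = Real.exp (-(Real.pi * w.im * t ^ 2)) := by
  rw [gs, Complex.norm_exp]
  congr 1
  have : (Real.pi : ℂ) * I * w * (t : ℂ) ^ 2 = ((Real.pi * t ^ 2 : ℝ) : ℂ) * (I * w) := by
    push_cast; ring
  rw [this, Complex.re_ofReal_mul]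
  simp
  ring

theorem P5b_gs_le {w : ℂ} (hw : 0 < w.im) (t : ℝ) : ‖gs w t‖ ≤ 1 := by
  rw [P5b_gs_norm, Real.exp_le_one_iff]
  have : 0 ≤ Real.pi * w.im * t ^ 2 :=
    mul_nonneg (mul_nonneg Real.pi_pos.le hw.le) (sq_nonneg _)
  linarith

theorem P5b_gs'_norm (w : ℂ) (t : ℝ) : ‖gs' w t‖ = 2 * Real.pi * ‖w‖ * |t| * ‖gs w t‖ := by
  rw [gs']
  simp only [norm_mul, Complex.norm_I, Complex.norm_real, Real.norm_eq_abs, abs_of_pos Real.pi_pos,
    Complex.norm_ofNat, mul_one]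

theorem P5b_nd_sq (n : ℕ) : nd n ^ 2 = 2 * n := by
  rw [nd, Real.sq_sqrt (by positivity)]

theorem P5b_gs_nd (w : ℂ) (n : ℕ) : gs w (nd n) = cexp (2 * Real.pi * I * n * w) := by
  rw [gs]
  congr 1
  have h : ((nd n : ℝ) : ℂ) ^ 2 = 2 * n := by exact_mod_cast P5b_nd_sq n
  rw [h]
  ring

theorem P5b_LT_eq {a b : ℕ → ℂ} (hb : b 0 = 0) (w : ℂ) (n : ℕ) :
    LT a b (gs w) (gs' w) n = (a n + w * b n) * cexp (2 * Real.pi * I * n * w) := by
  rw [LT]
  rcases Nat.eq_zero_or_pos n with h | h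
  · subst h
    rw [hb, P5b_gs_nd]
    simp
  · have h1 : (0 : ℝ) < nd n := by
      rw [nd]; apply Real.sqrt_pos.mpr; positivity
    have h2 : ((nd n : ℝ) : ℂ) ≠ 0 := by exact_mod_cast h1.ne'
    have hpi : (Real.pi : ℂ) ≠ 0 := by exact_mod_cast Real.pi_ne_zero
    have h3 : gs' w (nd n) / (2 * Real.pi * I * nd n) = w * gs w (nd n) := by
      rw [gs']
      field_simp
    rw [h3, P5b_gs_nd]
    ring

theorem P5b_term_norm {a b : ℕ → ℂ} {C : ℝ} {A : ℕ} (hab : PB a b C A) (w : ℂ) (n : ℕ) :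
    ‖(a n + w * b n) * cexp (2 * Real.pi * I * n * w)‖ ≤
      (C * (1 + ‖w‖)) * (((n : ℝ) + 1) ^ A * Real.exp (-(2 * Real.pi * n * w.im))) := by
  rw [norm_mul, Complex.norm_exp]
  have h1 : (2 * (Real.pi : ℂ) * I * n * w).re = -(2 * Real.pi * n * w.im) := by
    have : (2 * (Real.pi : ℂ) * I * n * w) = ((2 * Real.pi * n : ℝ) : ℂ) * (I * w) := by
      push_cast; ring
    rw [this, Complex.re_ofReal_mul]
    simp
  rw [h1]
  have h2 : ‖a n + w * b n‖ ≤ (C * (1 + ‖w‖)) * ((n : ℝ) + 1) ^ A := by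
    calc ‖a n + w * b n‖ ≤ ‖a n‖ + ‖w‖ * ‖b n‖ := by
          refine (norm_add_le _ _).trans ?_
          rw [norm_mul]
      _ ≤ C * ((n : ℝ) + 1) ^ A + ‖w‖ * (C * ((n : ℝ) + 1) ^ A) :=
          add_le_add (hab.ha n) (mul_le_mul_of_nonneg_left (hab.hb n) (norm_nonneg _))
      _ = (C * (1 + ‖w‖)) * ((n : ℝ) + 1) ^ A := by ring
  calc ‖a n + w * b n‖ * Real.exp (-(2 * Real.pi * n * w.im))
      ≤ ((C * (1 + ‖w‖)) * ((n : ℝ) + 1) ^ A) * Real.exp (-(2 * Real.pi * n * w.im)) :=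
        mul_le_mul_of_nonneg_right h2 (Real.exp_pos _).le
    _ = _ := by ring

theorem P5b_C_nonneg {a b : ℕ → ℂ} {C : ℝ} {A : ℕ} (hab : PB a b C A) : 0 ≤ C := by
  have h := (norm_nonneg _).trans (hab.ha 0)
  simpa using h

theorem P5b_ee_eq (r : ℝ) (w : ℂ) : ee r w = gs w r - gs w (Real.sqrt (r ^ 2 + 2)) := by
  have h1 : Real.sqrt (r ^ 2 + 2) ^ 2 = r ^ 2 + 2 := Real.sq_sqrt (by positivity)
  have h2 : ((Real.sqrt (r ^ 2 + 2) : ℝ) : ℂ) ^ 2 = (r : ℂ) ^ 2 + 2 := by exact_mod_cast h1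
  have h3 : (Real.pi : ℂ) * I * w * (r : ℂ) ^ 2 = Real.pi * I * (r : ℂ) ^ 2 * w := by ring
  have h4 : (Real.pi : ℂ) * I * w * ((r : ℂ) ^ 2 + 2) =
      Real.pi * I * (r : ℂ) ^ 2 * w + 2 * Real.pi * I * w := by ring
  rw [ee, gs, gs, h2, h3, h4, Complex.exp_add]
  ring

theorem P5b_gs_hasDerivAt (w : ℂ) (t : ℝ) : HasDerivAt (gs w) (gs' w t) t := by
  have h1 : HasDerivAt (fun t : ℝ => (t : ℂ) ^ 2) (2 * (t : ℂ)) t := by
    have h0 := (Complex.ofRealCLM.hasDerivAt (x := t)).fun_pow 2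
    simpa using h0
  have h2 : HasDerivAt (fun t : ℝ => Real.pi * I * w * (t : ℂ) ^ 2)
      (Real.pi * I * w * (2 * (t : ℂ))) t := h1.const_mul _
  have h3 := h2.cexp
  have h4 : (fun t : ℝ => cexp (Real.pi * I * w * (t : ℂ) ^ 2)) = gs w := by
    funext s; rfl
  rw [h4] at h3
  refine h3.congr_deriv ?_
  rw [gs', gs]
  ring

/-- the superposition -/
theorem P_swap {a b : ℕ → ℂ} {C : ℝ} {A : ℕ} (hab : PB a b C A) (r : ℝ) {F : ℂ → ℂ}
    (hF : ∀ z : ℂ, 0 < z.im →
      HasSum (fun n : ℕ => (a n + z * b n) * cexp (2 * Real.pi * I * n * z)) (F z))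
    {χ w : ℝ → ℂ} (hχ : Continuous χ) (hw : Continuous w) (hw0 : ∀ x, 0 < (w x).im)
    {K : ℝ} (hK : ∀ x, ‖χ x‖ * (1 + ‖w x‖) * (1 + 1 / (w x).im) ^ (A + 1) ≤ K / (1 + x ^ 2)) :
    (∀ t : ℝ, HasDerivAt (fun t : ℝ => ∫ x : ℝ, χ x * gs (w x) t)
      (∫ x : ℝ, χ x * gs' (w x) t) t) ∧
    Summable (LT a b (fun t => ∫ x : ℝ, χ x * gs (w x) t) (fun t => ∫ x : ℝ, χ x * gs' (w x) t)) ∧
    Integrable (fun x => χ x * (F (w x) - ee r (w x))) ∧
    LL a b r (fun t => ∫ x : ℝ, χ x * gs (w x) t) (fun t => ∫ x : ℝ, χ x * gs' (w x) t) =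
      ∫ x : ℝ, χ x * (F (w x) - ee r (w x)) := by
  have hC := P5b_C_nonneg hab
  have hpow1 : ∀ x, 1 ≤ (1 + 1 / (w x).im) ^ (A + 1) := fun x =>
    one_le_pow₀ (by have := (one_div_pos.mpr (hw0 x)).le; linarith)
  -- basic bounds
  have hb0 : ∀ x, ‖χ x‖ * (1 + ‖w x‖) ≤ K / (1 + x ^ 2) := by
    intro x
    refine le_trans ?_ (hK x)
    exact le_mul_of_one_le_right (by positivity) (hpow1 x)
  have hb1 : ∀ x, ‖χ x‖ ≤ K / (1 + x ^ 2) := by
    intro x
    refine le_trans ?_ (hb0 x)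
    exact le_mul_of_one_le_right (norm_nonneg _) (by linarith [norm_nonneg (w x)])
  have hb2 : ∀ x, ‖χ x‖ * ‖w x‖ ≤ K / (1 + x ^ 2) := by
    intro x
    refine le_trans ?_ (hb0 x)
    exact mul_le_mul_of_nonneg_left (by linarith) (norm_nonneg _)
  have hint0 : Integrable fun x : ℝ => K / (1 + x ^ 2) := by
    simpa [div_eq_mul_inv] using integrable_inv_one_add_sq.const_mul K
  have hcont_gs : ∀ t : ℝ, Continuous fun x => χ x * gs (w x) t := by
    intro t; unfold gs; fun_prop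
  have hcont_gs' : ∀ t : ℝ, Continuous fun x => χ x * gs' (w x) t := by
    intro t; unfold gs' gs; fun_prop
  have hint_gs : ∀ t : ℝ, Integrable fun x => χ x * gs (w x) t := by
    intro t
    refine hint0.mono' (hcont_gs t).aestronglyMeasurable (Filter.Eventually.of_forall fun x => ?_)
    rw [norm_mul]
    refine le_trans ?_ (hb1 x)
    exact mul_le_of_le_one_right (norm_nonneg _) (P5b_gs_le (hw0 x) t)
  have hbd' : ∀ x t : ℝ, ‖χ x * gs' (w x) t‖ ≤ 2 * Real.pi * |t| * (K / (1 + x ^ 2)) := by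
    intro x t
    rw [norm_mul, P5b_gs'_norm]
    calc ‖χ x‖ * (2 * Real.pi * ‖w x‖ * |t| * ‖gs (w x) t‖)
        ≤ ‖χ x‖ * (2 * Real.pi * ‖w x‖ * |t| * 1) := by
          refine mul_le_mul_of_nonneg_left ?_ (norm_nonneg _)
          exact mul_le_mul_of_nonneg_left (P5b_gs_le (hw0 x) t) (by positivity)
      _ = 2 * Real.pi * |t| * (‖χ x‖ * ‖w x‖) := by ring
      _ ≤ 2 * Real.pi * |t| * (K / (1 + x ^ 2)) :=
          mul_le_mul_of_nonneg_left (hb2 x) (by positivity)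
  have hint_gs' : ∀ t : ℝ, Integrable fun x => χ x * gs' (w x) t := by
    intro t
    refine (hint0.const_mul (2 * Real.pi * |t|)).mono' (hcont_gs' t).aestronglyMeasurable
      (Filter.Eventually.of_forall fun x => hbd' x t)
  -- derivative
  have hder : ∀ t : ℝ, HasDerivAt (fun t : ℝ => ∫ x : ℝ, χ x * gs (w x) t)
      (∫ x : ℝ, χ x * gs' (w x) t) t := by
    intro t0
    refine (hasDerivAt_integral_of_dominated_loc_of_deriv_le
      (F := fun t x => χ x * gs (w x) t) (F' := fun t x => χ x * gs' (w x) t)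
      (bound := fun x => 2 * Real.pi * (|t0| + 1) * (K / (1 + x ^ 2)))
      (Metric.ball_mem_nhds t0 one_pos) ?_ (hint_gs t0)
      (hcont_gs' t0).aestronglyMeasurable ?_ (hint0.const_mul _) ?_).2
    · exact Filter.Eventually.of_forall fun t => (hcont_gs t).aestronglyMeasurable
    · refine Filter.Eventually.of_forall fun x t ht => ?_
      refine (hbd' x t).trans ?_
      have h1 : |t| ≤ |t0| + 1 := by
        rw [Metric.mem_ball, Real.dist_eq] at ht
        have := abs_sub_abs_le_abs_sub t t0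
        linarith
      have h2 : 0 ≤ K / (1 + x ^ 2) := le_trans (norm_nonneg _) (hb1 x)
      refine mul_le_mul_of_nonneg_right ?_ h2
      exact mul_le_mul_of_nonneg_left h1 (by positivity)
    · refine Filter.Eventually.of_forall fun x t _ => ?_
      exact (P5b_gs_hasDerivAt (w x) t).const_mul (χ x)
  -- the series
  obtain ⟨K', hK'0, hK'⟩ := P_geo A
  set T : ℕ → ℝ → ℂ := fun n x =>
    χ x * ((a n + w x * b n) * cexp (2 * Real.pi * I * n * w x)) with hT
  have hTcont : ∀ n, Continuous (T n) := by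
    intro n; simp only [hT]; fun_prop
  set g : ℕ → ℝ → ℝ := fun n x => (‖χ x‖ * (C * (1 + ‖w x‖))) *
    (((n : ℝ) + 1) ^ A * Real.exp (-(2 * Real.pi * n * (w x).im))) with hg
  have hTg : ∀ n x, ‖T n x‖ ≤ g n x := by
    intro n x
    have h1 := mul_le_mul_of_nonneg_left (P5b_term_norm hab (w x) n) (norm_nonneg (χ x))
    simp only [hT, hg]
    rw [norm_mul]
    refine h1.trans (le_of_eq ?_)
    ring
  have hg0 : ∀ n x, 0 ≤ g n x := fun n x => (norm_nonneg (T n x)).trans (hTg n x)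
  have hgs : ∀ x, Summable fun n => g n x := by
    intro x
    exact (hK' (w x).im (hw0 x)).1.mul_left _
  set M : ℝ → ℝ := fun x => (C * K') * (K / (1 + x ^ 2)) with hM
  have hgtsum : ∀ x, ∑' n, g n x ≤ M x := by
    intro x
    have h1 := (hK' (w x).im (hw0 x)).2
    simp only [hg, hM]
    rw [tsum_mul_left]
    calc (‖χ x‖ * (C * (1 + ‖w x‖))) *
          ∑' n : ℕ, ((n : ℝ) + 1) ^ A * Real.exp (-(2 * Real.pi * n * (w x).im))
        ≤ (‖χ x‖ * (C * (1 + ‖w x‖))) * (K' * (1 + 1 / (w x).im) ^ (A + 1)) :=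
          mul_le_mul_of_nonneg_left h1 (by positivity)
      _ = (C * K') * (‖χ x‖ * (1 + ‖w x‖) * (1 + 1 / (w x).im) ^ (A + 1)) := by ring
      _ ≤ (C * K') * (K / (1 + x ^ 2)) :=
          mul_le_mul_of_nonneg_left (hK x) (by positivity)
  have hMint : Integrable M := hint0.const_mul _
  have hgM : ∀ n x, g n x ≤ M x := fun n x =>
    ((hgs x).le_tsum n fun m _ => hg0 m x).trans (hgtsum x)
  have hTint : ∀ n, Integrable (T n) := fun n =>
    hMint.mono' (hTcont n).aestronglyMeasurable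
      (Filter.Eventually.of_forall fun x => (hTg n x).trans (hgM n x))
  have hTsum : Summable fun n => ∫ x, ‖T n x‖ := by
    refine summable_of_sum_le (c := ∫ x, M x)
      (fun n => integral_nonneg fun x => norm_nonneg (T n x)) ?_
    intro u
    rw [← integral_finsetSum u fun n _ => (hTint n).norm]
    refine integral_mono (integrable_finsetSum u fun n _ => (hTint n).norm) hMint ?_
    intro x
    calc ∑ n ∈ u, ‖T n x‖ ≤ ∑ n ∈ u, g n x := Finset.sum_le_sum fun n _ => hTg n x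
      _ ≤ ∑' n, g n x := (hgs x).sum_le_tsum u fun n _ => hg0 n x
      _ ≤ M x := hgtsum x
  have hTF : ∀ x, HasSum (fun n => T n x) (χ x * F (w x)) := fun x =>
    (hF (w x) (hw0 x)).mul_left (χ x)
  have hsum := hasSum_integral_of_summable_integral_norm hTint hTsum
  have hsum' : HasSum (fun n => ∫ x, T n x) (∫ x, χ x * F (w x)) := by
    have h1 : (fun x => ∑' n, T n x) = fun x => χ x * F (w x) := by
      funext x; exact (hTF x).tsum_eq
    rwa [h1] at hsum
  -- the terms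
  have hLT : ∀ n, LT a b (fun t => ∫ x : ℝ, χ x * gs (w x) t)
      (fun t => ∫ x : ℝ, χ x * gs' (w x) t) n = ∫ x, T n x := by
    intro n
    rw [LT]
    have h1 : (∫ x : ℝ, χ x * gs' (w x) (nd n)) / (2 * Real.pi * I * nd n) =
        ∫ x : ℝ, (χ x * gs' (w x) (nd n)) / (2 * Real.pi * I * nd n) := by
      rw [integral_div]
    rw [h1, ← integral_const_mul, ← integral_const_mul, ← integral_add ((hint_gs _).const_mul _)
      (((hint_gs' _).div_const _).const_mul _)]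
    congr 1
    funext x
    simp only [hT]
    rw [← P5b_LT_eq hab.b0, LT]
    ring
  have hLTf : LT a b (fun t => ∫ x : ℝ, χ x * gs (w x) t)
      (fun t => ∫ x : ℝ, χ x * gs' (w x) t) = fun n => ∫ x, T n x := funext hLT
  -- integrability of `χ F(w)`
  have hFmeas : AEStronglyMeasurable (fun x => χ x * F (w x)) := by
    refine aestronglyMeasurable_of_tendsto_ae (u := Filter.atTop)
      (f := fun (N : ℕ) x => ∑ n ∈ Finset.range N, T n x) ?_ ?_
    · intro N
      exact (continuous_finsetSum _ fun n _ => hTcont n).aestronglyMeasurable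
    · exact Filter.Eventually.of_forall fun x => (hTF x).tendsto_sum_nat
  have hFint : Integrable (fun x => χ x * F (w x)) := by
    refine hMint.mono' hFmeas (Filter.Eventually.of_forall fun x => ?_)
    rw [← (hTF x).tsum_eq]
    exact (tsum_of_norm_bounded (hgs x).hasSum fun n => hTg n x).trans (hgtsum x)
  have heint : Integrable (fun x => χ x * ee r (w x)) := by
    have h1 : (fun x => χ x * ee r (w x)) =
        fun x => χ x * gs (w x) r - χ x * gs (w x) (Real.sqrt (r ^ 2 + 2)) := by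
      funext x; rw [P5b_ee_eq]; ring
    rw [h1]
    exact (hint_gs _).sub (hint_gs _)
  have hfin : (fun x => χ x * (F (w x) - ee r (w x))) =
      fun x => χ x * F (w x) - χ x * ee r (w x) := by
    funext x; ring
  refine ⟨hder, ?_, ?_, ?_⟩
  · rw [hLTf]; exact hsum'.summable
  · rw [hfin]; exact hFint.sub heint
  · rw [LL, hLTf, hsum'.tsum_eq, hfin, integral_sub hFint heint]
    have h1 : (fun x => χ x * ee r (w x)) =
        fun x => χ x * gs (w x) r - χ x * gs (w x) (Real.sqrt (r ^ 2 + 2)) := by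
      funext x; rw [P5b_ee_eq]; ring
    rw [h1, integral_sub (hint_gs _) (hint_gs _)]
    ring

end Pool.Agent.K2P
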