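import Pool.Agent.Lib_helper97.K2P.F.P1
import Pool.Agent.Lib_helper97.K2P.F.P5b

/-!
# K2P, block P2: flattening at `0` by finitely many Gaussians (helper97)
-/

set_option autoImplicit false

open scoped FourierTransform SchwartzMap

namespace Pool.Agent.K2P

open Complex MeasureTheory

/-- even Schwartz functions -/
abbrev Ev := {F : 𝓢(ℝ, ℂ) // ∀ t, F (-t) = F t}

/-- one division -/
noncomputable def P2_next (F : Ev) : Ev :=
  ⟨(P_div F.1 F.2).choose, (P_div F.1 F.2).choose_spec.1⟩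

theorem P2_next_der (F : Ev) (t : ℝ) : HasDerivAt F.1 ((t : ℂ) * (P2_next F).1 t) t :=
  (P_div F.1 F.2).choose_spec.2 t

noncomputable def P2_seq (F : Ev) : ℕ → Ev
  | 0 => F
  | n + 1 => P2_next (P2_seq F n)

theorem P2_poly {t : ℝ} : (1 + t ^ 2) ^ 2 ≤ (1 + |t|) ^ 4 := by
  have h : 1 + t ^ 2 ≤ (1 + |t|) ^ 2 := by nlinarith [abs_nonneg t, sq_abs t]
  calc (1 + t ^ 2) ^ 2 ≤ ((1 + |t|) ^ 2) ^ 2 := pow_le_pow_left₀ (by positivity) h 2
    _ = _ := by ring

theorem P2_sbd (F : 𝓢(ℝ, ℂ)) : ∃ C : ℝ, 0 ≤ C ∧ ∀ t, ‖F t‖ * (1 + t ^ 2) ^ 2 ≤ C := by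
  refine ⟨2 ^ 4 * (Finset.Iic (4, 0)).sup
    (fun m => SchwartzMap.seminorm ℝ m.1 m.2) F, by positivity, fun t => ?_⟩
  have h := SchwartzMap.one_add_le_sup_seminorm_apply (𝕜 := ℝ) (m := (4, 0)) (k := 4) (n := 0)
    le_rfl le_rfl F t
  rw [norm_iteratedFDeriv_zero, Real.norm_eq_abs] at h
  calc ‖F t‖ * (1 + t ^ 2) ^ 2 ≤ ‖F t‖ * (1 + |t|) ^ 4 :=
        mul_le_mul_of_nonneg_left P2_poly (norm_nonneg _)
    _ = (1 + |t|) ^ 4 * ‖F t‖ := by ring
    _ ≤ _ := h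

theorem P2_gbd {w : ℝ} (hw : 1 ≤ w) (t : ℝ) : ‖gs (w * I) t‖ * (1 + t ^ 2) ^ 2 ≤ 2 := by
  have h1 : ‖gs (w * I) t‖ = Real.exp (-(Real.pi * w * t ^ 2)) := by
    rw [gs, Complex.norm_exp]
    congr 1
    have : (Real.pi : ℂ) * I * (w * I) * (t : ℂ) ^ 2 = ((-(Real.pi * w * t ^ 2) : ℝ) : ℂ) := by
      push_cast
      have := I_mul_I
      linear_combination (Real.pi * w * (t : ℂ) ^ 2) * this
    rw [this, Complex.ofReal_re]
  have h2 : (1 + t ^ 2) ^ 2 ≤ 2 * Real.exp (t ^ 2) := by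
    have := Real.quadratic_le_exp_of_nonneg (sq_nonneg t)
    nlinarith [sq_nonneg (t ^ 2)]
  rw [h1]
  calc Real.exp (-(Real.pi * w * t ^ 2)) * (1 + t ^ 2) ^ 2
      ≤ Real.exp (-(t ^ 2)) * (2 * Real.exp (t ^ 2)) := by
        gcongr
        have h3 : 1 ≤ Real.pi * w := by
          have := Real.pi_gt_three
          nlinarith
        nlinarith [sq_nonneg t]
    _ = 2 := by
        rw [mul_left_comm, ← Real.exp_add]; simp

theorem P_flat (F : 𝓢(ℝ, ℂ)) (hF : ∀ t, F (-t) = F t) (J : ℕ) :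
    ∃ (c : Fin J → ℂ) (E : ℕ → ℝ → ℂ), Chain E J ∧
      ∀ t : ℝ, E 0 t = F t - ∑ j : Fin J, c j * gs (((j : ℕ) + 1 : ℂ) * I) t := by
  set S : ℕ → Ev := P2_seq ⟨F, hF⟩ with hS
  set v : Fin J → ℂ := fun j => -2 * Real.pi * (((j : ℕ) : ℂ) + 1) with hv
  have hvi : Function.Injective v := by
    intro i j hij
    have hpi : (Real.pi : ℂ) ≠ 0 := by exact_mod_cast Real.pi_ne_zero
    rw [hv] at hij
    simp only at hij
    have h1 : (((i : ℕ) : ℂ) + 1) = (((j : ℕ) : ℂ) + 1) := by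
      have h2 : (-2 * (Real.pi : ℂ)) ≠ 0 := mul_ne_zero (by norm_num) hpi
      exact mul_left_cancel₀ h2 hij
    have h3 : ((i : ℕ) : ℂ) = ((j : ℕ) : ℂ) := by linear_combination h1
    exact Fin.ext (by exact_mod_cast h3)
  have hdet : (Matrix.vandermonde v).det ≠ 0 := Matrix.det_vandermonde_ne_zero_iff.2 hvi
  set T : Fin J → ℂ := fun i => (S i).1 0 with hT
  set c : Fin J → ℂ := Matrix.vecMul T (Matrix.vandermonde v)⁻¹ with hc
  have hcT : Matrix.vecMul c (Matrix.vandermonde v) = T := by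
    rw [hc, Matrix.vecMul_vecMul, Matrix.nonsing_inv_mul _ (isUnit_iff_ne_zero.2 hdet),
      Matrix.vecMul_one]
  have hc' : ∀ i : Fin J, ∑ j, c j * v j ^ (i : ℕ) = (S i).1 0 := by
    intro i
    have := congrFun hcT i
    rw [Matrix.vecMul, dotProduct] at this
    simpa [Matrix.vandermonde] using this
  refine ⟨c, fun i t => (S i).1 t - ∑ j : Fin J, c j * v j ^ i *
    gs (((j : ℕ) + 1 : ℂ) * I) t, ⟨?_, ?_, ?_⟩, ?_⟩
  · intro i t
    have h1 : HasDerivAt (S i).1 ((t : ℂ) * (S (i + 1)).1 t) t := P2_next_der (S i) t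
    have h2 : ∀ j : Fin J, HasDerivAt (fun t : ℝ => c j * v j ^ i *
        gs (((j : ℕ) + 1 : ℂ) * I) t)
        (c j * v j ^ i * (v j * t * gs (((j : ℕ) + 1 : ℂ) * I) t)) t := by
      intro j
      have h3 : HasDerivAt (gs (((j : ℕ) + 1 : ℂ) * I))
          (v j * t * gs (((j : ℕ) + 1 : ℂ) * I) t) t := by
        refine (P5b_gs_hasDerivAt _ t).congr_deriv ?_
        unfold gs'
        rw [hv]
        simp only
        linear_combination (2 * Real.pi * (((j : ℕ) : ℂ) + 1) * t *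
          gs (((j : ℕ) + 1 : ℂ) * I) t) * I_mul_I
      exact h3.const_mul _
    refine (h1.fun_sub (HasDerivAt.fun_sum fun j (_ : j ∈ Finset.univ) => h2 j)).congr_deriv ?_
    rw [mul_sub, Finset.mul_sum]
    congr 1
    apply Finset.sum_congr rfl
    intro j _
    ring
  · intro i
    obtain ⟨C, hC, hb⟩ := P2_sbd (S i).1
    refine ⟨C + ∑ j : Fin J, ‖c j * v j ^ i‖ * 2, fun t => ?_⟩
    rw [le_div_iff₀ (by positivity)]
    calc ‖(S i).1 t - ∑ j : Fin J, c j * v j ^ i * gs (((j : ℕ) + 1 : ℂ) * I) t‖ *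
          (1 + t ^ 2) ^ 2
        ≤ (‖(S i).1 t‖ + ∑ j : Fin J, ‖c j * v j ^ i‖ * ‖gs (((j : ℕ) + 1 : ℂ) * I) t‖) *
          (1 + t ^ 2) ^ 2 := by
          gcongr
          refine (norm_sub_le _ _).trans ?_
          gcongr
          refine (norm_sum_le _ _).trans (le_of_eq ?_)
          apply Finset.sum_congr rfl
          intro j _
          rw [norm_mul]
      _ = ‖(S i).1 t‖ * (1 + t ^ 2) ^ 2 + ∑ j : Fin J, ‖c j * v j ^ i‖ *
          (‖gs (((j : ℕ) + 1 : ℂ) * I) t‖ * (1 + t ^ 2) ^ 2) := by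
          rw [add_mul, Finset.sum_mul]
          congr 1
          apply Finset.sum_congr rfl
          intro j _
          ring
      _ ≤ _ := by
          gcongr with j _
          · exact hb t
          · have := P2_gbd (w := ((j : ℕ) : ℝ) + 1) (by linarith [Nat.cast_nonneg (α := ℝ) (j : ℕ)]) t
            push_cast at this
            exact this
  · intro i hi
    have h1 := hc' ⟨i, hi⟩
    simp only at h1
    have h2 : ∀ j : Fin J, gs (((j : ℕ) + 1 : ℂ) * I) 0 = 1 := by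
      intro j; unfold gs; simp
    simp only [h2, mul_one]
    rw [h1, sub_self]
  · intro t
    simp only [pow_zero, mul_one]
    rfl

end Pool.Agent.K2P
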