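import Pool.Agent.Lib_helper97.K2P.Defs

/-!
# K2P, block P3: a flat profile is a superposition of Gaussians with small weight
Proof: `φ_i(s) = E i (√s) / 2^i` for `s > 0` and `0` for `s ≤ 0`. For `i < J` it is continuous, for
`i + 1 < J` it has derivative `φ_{i+1}` everywhere (at `0`: `hasDerivWithinAt_Ici_of_tendsto_deriv`);
all are integrable (`‖φ_i(s)‖ ≤ C/(1+s)²`). So (`Real.fourier_deriv`)
`‖𝓕 φ_0 (u)‖ (2π|u|)^(J-1) ≤ ‖φ_{J-1}‖₁`.  `ψ(x) = (1/2) 𝓕 φ_0 (x/2)`; Fourier inversion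
(`Continuous.fourierInv_fourier_eq`) gives `φ_0(s) = ∫ ψ(x) exp(π i x s) dx`.
-/

set_option autoImplicit false

open scoped FourierTransform SchwartzMap

namespace Pool.Agent.K2P

open Complex MeasureTheory

/-- the profile as a function of the square -/
noncomputable def P3_phi (E : ℕ → ℝ → ℂ) (i : ℕ) (s : ℝ) : ℂ := E i (Real.sqrt s) / 2 ^ i

theorem P3_cont {E : ℕ → ℝ → ℂ} {J : ℕ} (h : Chain E J) (i : ℕ) : Continuous (P3_phi E i) := by
  have h1 : Continuous (E i) := continuous_iff_continuousAt.2 fun t => (h.der i t).continuousAt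
  exact (h1.comp Real.continuous_sqrt).div_const _

theorem P3_der {E : ℕ → ℝ → ℂ} {J : ℕ} (h : Chain E J) {i : ℕ} (hi : i + 1 < J) (s : ℝ) :
    HasDerivAt (P3_phi E i) (P3_phi E (i + 1) s) s := by
  apply hasDerivAt_of_hasDerivAt_of_ne' (x := 0) _ (P3_cont h i).continuousAt
    (P3_cont h (i + 1)).continuousAt
  intro y hy
  rcases lt_or_gt_of_ne hy with hy0 | hy0
  · have h1 : P3_phi E (i + 1) y = 0 := by
      unfold P3_phi
      rw [Real.sqrt_eq_zero_of_nonpos hy0.le, h.zero (i + 1) hi, zero_div]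
    rw [h1]
    have h2 : P3_phi E i =ᶠ[nhds y] fun _ => (0 : ℂ) := by
      filter_upwards [gt_mem_nhds hy0] with t ht
      unfold P3_phi
      rw [Real.sqrt_eq_zero_of_nonpos (le_of_lt ht), h.zero i (by omega), zero_div]
    exact (hasDerivAt_const y (0 : ℂ)).congr_of_eventuallyEq h2
  · have h1 : HasDerivAt Real.sqrt (1 / (2 * Real.sqrt y)) y := Real.hasDerivAt_sqrt hy0.ne'
    have h2 := (HasDerivAt.scomp y (h.der i (Real.sqrt y)) h1).div_const (2 ^ i)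
    have h3 : 0 < Real.sqrt y := Real.sqrt_pos.2 hy0
    have h3' : ((Real.sqrt y : ℝ) : ℂ) ≠ 0 := by exact_mod_cast h3.ne'
    have e : (1 / (2 * Real.sqrt y)) • ((Real.sqrt y : ℂ) * E (i + 1) (Real.sqrt y)) / 2 ^ i =
        P3_phi E (i + 1) y := by
      unfold P3_phi
      rw [Complex.real_smul]
      push_cast
      rw [pow_succ]
      field_simp
    rw [← e]
    exact h2

theorem P3_bd {E : ℕ → ℝ → ℂ} {J : ℕ} (h : Chain E J) {i : ℕ} (hi : i < J) :
    ∃ C : ℝ, ∀ s : ℝ, ‖P3_phi E i s‖ ≤ C * (1 + s ^ 2)⁻¹ := by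
  obtain ⟨C, hC⟩ := h.bd i
  have hC0 : 0 ≤ C := by
    have h1 := hC 0
    have h2 := (norm_nonneg _).trans h1
    simpa using h2
  refine ⟨C, fun s => ?_⟩
  rcases le_or_gt s 0 with hs | hs
  · unfold P3_phi
    rw [Real.sqrt_eq_zero_of_nonpos hs, h.zero i hi, zero_div, norm_zero]
    positivity
  · unfold P3_phi
    have h1 := hC (Real.sqrt s)
    rw [Real.sq_sqrt hs.le] at h1
    have h2 : ‖E i (Real.sqrt s) / 2 ^ i‖ ≤ ‖E i (Real.sqrt s)‖ := by
      rw [norm_div, norm_pow]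
      apply div_le_self (norm_nonneg _)
      simp only [Complex.norm_ofNat]
      exact one_le_pow₀ (by norm_num)
    refine h2.trans (h1.trans ?_)
    rw [div_eq_mul_inv]
    apply mul_le_mul_of_nonneg_left _ hC0
    apply inv_anti₀ (by positivity)
    nlinarith

theorem P3_int {E : ℕ → ℝ → ℂ} {J : ℕ} (h : Chain E J) {i : ℕ} (hi : i < J) :
    Integrable (P3_phi E i) := by
  obtain ⟨C, hC⟩ := P3_bd h hi
  exact Integrable.mono' (integrable_inv_one_add_sq.const_mul C)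
    (P3_cont h i).aestronglyMeasurable (Filter.Eventually.of_forall hC)

theorem P3_four {E : ℕ → ℝ → ℂ} {J : ℕ} (h : Chain E J) : ∀ i : ℕ, i < J → ∀ u : ℝ,
    𝓕 (P3_phi E i) u = (2 * Real.pi * I * u) ^ i * 𝓕 (P3_phi E 0) u := by
  intro i
  induction i with
  | zero => intro _ u; simp
  | succ i ih =>
    intro hi u
    have h1 : deriv (P3_phi E i) = P3_phi E (i + 1) := by
      funext s; exact (P3_der h hi s).deriv
    have h2 := Real.fourier_deriv (P3_int h (show i < J by omega))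
      (fun s => (P3_der h hi s).differentiableAt) (by rw [h1]; exact P3_int h hi)
    rw [h1] at h2
    have h3 := congrFun h2 u
    rw [h3, ih (by omega) u, smul_eq_mul]
    ring

theorem P3_norm (f : ℝ → ℂ) (u : ℝ) : ‖𝓕 f u‖ ≤ ∫ v : ℝ, ‖f v‖ :=
  VectorFourier.norm_fourierIntegral_le_integral_norm _ _ _ _ _

theorem P_psi {E : ℕ → ℝ → ℂ} {J : ℕ} (hJ : 3 ≤ J) (h : Chain E J) :
    ∃ ψ : ℝ → ℂ, Continuous ψ ∧ (∃ C : ℝ, ∀ x, ‖ψ x‖ ≤ C / (1 + |x|) ^ (J - 1)) ∧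
      ∀ t : ℝ, 0 ≤ t → E 0 t = ∫ x : ℝ, ψ x * gs x t := by
  have hint0 := P3_int h (show 0 < J by omega)
  have hcF : Continuous (𝓕 (P3_phi E 0)) :=
    VectorFourier.fourierIntegral_continuous Real.continuous_fourierChar
      (innerSL ℝ).continuous₂ hint0
  obtain ⟨K₀, hK₀⟩ : ∃ K : ℝ, K = ∫ v : ℝ, ‖P3_phi E 0 v‖ := ⟨_, rfl⟩
  obtain ⟨K₁, hK₁⟩ : ∃ K : ℝ, K = ∫ v : ℝ, ‖P3_phi E (J - 1) v‖ := ⟨_, rfl⟩
  have hK₀0 : 0 ≤ K₀ := by rw [hK₀]; exact integral_nonneg fun v => norm_nonneg _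
  have hK₁0 : 0 ≤ K₁ := by rw [hK₁]; exact integral_nonneg fun v => norm_nonneg _
  have hpi := Real.pi_gt_three
  have hF : ∀ u : ℝ, ‖𝓕 (P3_phi E 0) u‖ ≤ 2 ^ (J - 1) * (K₀ + K₁) / (1 + 2 * |u|) ^ (J - 1) := by
    intro u
    have h0 := P3_norm (P3_phi E 0) u
    have h1 := P3_norm (P3_phi E (J - 1)) u
    rw [← hK₀] at h0
    rw [← hK₁, P3_four h (J - 1) (by omega) u, norm_mul, norm_pow] at h1
    have h2 : ‖(2 * Real.pi * I * u : ℂ)‖ = 2 * Real.pi * |u| := by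
      simp [abs_of_pos Real.pi_pos]
    rw [h2] at h1
    rw [le_div_iff₀ (by positivity)]
    have hu := abs_nonneg u
    rcases le_or_gt (2 * |u|) 1 with h3 | h3
    · have h4 : (1 + 2 * |u|) ^ (J - 1) ≤ 2 ^ (J - 1) :=
        pow_le_pow_left₀ (by positivity) (by linarith) _
      calc ‖𝓕 (P3_phi E 0) u‖ * (1 + 2 * |u|) ^ (J - 1) ≤ K₀ * 2 ^ (J - 1) := by gcongr
        _ ≤ (K₀ + K₁) * 2 ^ (J - 1) := by gcongr; linarith
        _ = _ := by ring
    · have h4 : (1 + 2 * |u|) ^ (J - 1) ≤ 2 ^ (J - 1) * (2 * Real.pi * |u|) ^ (J - 1) := by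
        rw [← mul_pow]
        apply pow_le_pow_left₀ (by positivity)
        nlinarith
      calc ‖𝓕 (P3_phi E 0) u‖ * (1 + 2 * |u|) ^ (J - 1)
          ≤ ‖𝓕 (P3_phi E 0) u‖ * (2 ^ (J - 1) * (2 * Real.pi * |u|) ^ (J - 1)) := by gcongr
        _ = 2 ^ (J - 1) * ((2 * Real.pi * |u|) ^ (J - 1) * ‖𝓕 (P3_phi E 0) u‖) := by ring
        _ ≤ 2 ^ (J - 1) * K₁ := by gcongr
        _ ≤ _ := by gcongr; linarith
  have hFi : Integrable (𝓕 (P3_phi E 0)) := by
    refine Integrable.mono' (integrable_inv_one_add_sq.const_mul (2 ^ (J - 1) * (K₀ + K₁)))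
      hcF.aestronglyMeasurable (Filter.Eventually.of_forall fun u => ?_)
    refine (hF u).trans ?_
    rw [div_eq_mul_inv]
    gcongr
    calc 1 + u ^ 2 ≤ (1 + 2 * |u|) ^ 2 := by
          rw [← sq_abs u]
          nlinarith [abs_nonneg u, sq_nonneg |u|]
      _ ≤ (1 + 2 * |u|) ^ (J - 1) := by
          apply pow_le_pow_right₀
          · linarith [abs_nonneg u]
          · omega
  have hinv := Continuous.fourierInv_fourier_eq (P3_cont h 0) hint0 hFi
  refine ⟨fun x => (1 / 2 : ℂ) * 𝓕 (P3_phi E 0) (x / 2), ?_, ?_, ?_⟩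
  · exact continuous_const.mul (hcF.comp (continuous_id.div_const 2))
  · refine ⟨2 ^ (J - 1) * (K₀ + K₁), fun x => ?_⟩
    have h1 := hF (x / 2)
    have h2 : 2 * |x / 2| = |x| := by
      rw [abs_div]; norm_num
      ring
    rw [h2] at h1
    rw [norm_mul]
    have h3 : ‖(1 / 2 : ℂ)‖ = 1 / 2 := by norm_num
    rw [h3]
    have h4 := norm_nonneg (𝓕 (P3_phi E 0) (x / 2))
    linarith
  · intro t ht
    have h1 := congrFun hinv (t ^ 2)
    rw [Real.fourierInv_eq'] at h1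
    have h2 : P3_phi E 0 (t ^ 2) = E 0 t := by
      unfold P3_phi
      rw [Real.sqrt_sq ht]; simp
    rw [h2] at h1
    rw [← h1]
    have h3 : ∀ x : ℝ, (1 / 2 : ℂ) * 𝓕 (P3_phi E 0) (x / 2) * gs x t =
        (1 / 2 : ℂ) * (fun v : ℝ => Complex.exp ((↑(2 * Real.pi * inner ℝ v (t ^ 2)) * Complex.I)) •
          𝓕 (P3_phi E 0) v) (x / 2) := by
      intro x
      show _ = (1 / 2 : ℂ) * (Complex.exp ((↑(2 * Real.pi * inner ℝ (x / 2) (t ^ 2)) * Complex.I)) •
          𝓕 (P3_phi E 0) (x / 2))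
      unfold gs
      rw [smul_eq_mul]
      have h4 : ((2 * Real.pi * inner ℝ (x / 2) (t ^ 2) : ℝ) : ℂ) * I =
          Real.pi * I * x * (t : ℂ) ^ 2 := by
        have : inner ℝ (x / 2) (t ^ 2) = (x / 2) * t ^ 2 := by
          simp [mul_comm]
        rw [this]
        push_cast
        ring
      rw [h4]
      ring
    have h5 := Measure.integral_comp_div (fun v : ℝ =>
      Complex.exp ((↑(2 * Real.pi * inner ℝ v (t ^ 2)) * Complex.I)) • 𝓕 (P3_phi E 0) v) 2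
    rw [integral_congr_ae (Filter.Eventually.of_forall h3), integral_const_mul, h5,
      abs_of_pos (by norm_num : (0 : ℝ) < 2), Complex.real_smul]
    push_cast
    ring

end Pool.Agent.K2P
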