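import Pool.Agent.Lib_helper97.K2P.Defs

/-!
# K2P, block P4: the Fourier transform of the superposition
Proof: `gs x ‖v‖ * gs (δ I) ‖v‖ = gs (x + δ I) ‖v‖`, Fubini on `ℝ × V` (integrable: `‖ψ x‖ exp(-πδ‖v‖²)`),
Mathlib's `fourier_gaussian_innerProductSpace` (the transform of `exp(-b‖v‖²)`, `b = -π I (x + δ I)`,
is `(π/b)^(d/2) exp(-π²‖ξ‖²/b)`; `π/b = I/w`, `w = x + δ I`).
-/

set_option autoImplicit false

open scoped FourierTransform SchwartzMap

namespace Pool.Agent.K2P

open Complex MeasureTheory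

/-- the Fourier transform of a Gaussian -/
theorem P_gauss {d : ℕ} {w : ℂ} (hw : 0 < w.im) (ξ : EuclideanSpace ℝ (Fin d)) :
    𝓕 (fun v : EuclideanSpace ℝ (Fin d) => gs w ‖v‖) ξ = jk d w * gs (-1 / w) ‖ξ‖ := by
  have hw0 : w ≠ 0 := by
    intro h; rw [h] at hw; simp at hw
  have hpi : (Real.pi : ℂ) ≠ 0 := by exact_mod_cast Real.pi_ne_zero
  have hb : 0 < (-(Real.pi * I * w)).re := by
    have : (-(Real.pi * I * w)).re = Real.pi * w.im := by
      simp [Complex.mul_re, Complex.mul_im]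
    rw [this]; exact mul_pos Real.pi_pos hw
  have h := fourier_gaussian_innerProductSpace (V := EuclideanSpace ℝ (Fin d)) hb ξ
  have h1 : (fun v : EuclideanSpace ℝ (Fin d) => gs w ‖v‖) =
      fun v : EuclideanSpace ℝ (Fin d) => cexp (-(-(Real.pi * I * w)) * (‖v‖ : ℂ) ^ 2) := by
    funext v
    simp only [gs, neg_neg]
  rw [h1, h, jk, gs, finrank_euclideanSpace_fin]
  have h2 : (Real.pi : ℂ) / -(Real.pi * I * w) = I / w := by
    field_simp
    simp
  have h3 : -(Real.pi : ℂ) ^ 2 * (‖ξ‖ : ℂ) ^ 2 / -(Real.pi * I * w) =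
      Real.pi * I * (-1 / w) * (‖ξ‖ : ℂ) ^ 2 := by
    field_simp
    simp
  rw [h2, h3]

theorem P4_gs_norm (w : ℂ) (t : ℝ) : ‖gs w t‖ = Real.exp (-(Real.pi * w.im * t ^ 2)) := by
  rw [gs, Complex.norm_exp]
  congr 1
  have : (Real.pi : ℂ) * I * w * (t : ℂ) ^ 2 = ((Real.pi * t ^ 2 : ℝ) : ℂ) * (I * w) := by
    push_cast; ring
  rw [this, Complex.re_ofReal_mul]
  simp
  ring

theorem P4_gs_add (z w : ℂ) (t : ℝ) : gs z t * gs w t = gs (z + w) t := by
  rw [gs, gs, gs, ← Complex.exp_add]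
  congr 1
  ring

theorem P_rep {d : ℕ} {ψ : ℝ → ℂ} (hc : Continuous ψ) (hi : Integrable ψ) {δ : ℝ} (hδ : 0 < δ)
    (f : EuclideanSpace ℝ (Fin d) → ℂ) (hf : ∀ v, f v = ∫ x : ℝ, ψ x * gs x ‖v‖)
    (ξ : EuclideanSpace ℝ (Fin d)) :
    𝓕 (fun v : EuclideanSpace ℝ (Fin d) => f v * gs (δ * I) ‖v‖) ξ =
      ∫ x : ℝ, (ψ x * jk d (x + δ * I)) * gs (-1 / (x + δ * I)) ‖ξ‖ := by
  rw [Real.fourier_eq']
  have him : ∀ x : ℝ, ((x : ℂ) + δ * I).im = δ := fun x => by simp
  -- pointwise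
  have h1 : ∀ v : EuclideanSpace ℝ (Fin d),
      cexp (((-2 * Real.pi * inner ℝ v ξ : ℝ) : ℂ) * I) • (f v * gs (δ * I) ‖v‖) =
      ∫ x : ℝ, ψ x * (cexp (((-2 * Real.pi * inner ℝ v ξ : ℝ) : ℂ) * I) *
        gs ((x : ℂ) + δ * I) ‖v‖) := by
    intro v
    rw [hf v, smul_eq_mul, ← integral_mul_const, ← integral_const_mul]
    congr 1
    funext x
    rw [← P4_gs_add]
    ring
  rw [integral_congr_ae (Filter.Eventually.of_forall h1)]
  rw [integral_integral_swap]
  · congr 1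
    funext x
    rw [integral_const_mul]
    have h2 := P_gauss (d := d) (w := (x : ℂ) + δ * I) (by rw [him]; exact hδ) ξ
    rw [Real.fourier_eq'] at h2
    simp only [smul_eq_mul] at h2
    rw [h2]
    ring
  · -- integrability
    have hg : Integrable (fun v : EuclideanSpace ℝ (Fin d) => gs (δ * I) ‖v‖) := by
      have hb : 0 < (-(Real.pi * I * (δ * I) : ℂ)).re := by
        have : (-(Real.pi * I * (δ * I) : ℂ)) = ((Real.pi * δ : ℝ) : ℂ) := by
          push_cast
          linear_combination (-(Real.pi : ℂ) * δ) * Complex.I_mul_I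
        rw [this, Complex.ofReal_re]
        exact mul_pos Real.pi_pos hδ
      have h := GaussianFourier.integrable_cexp_neg_mul_sq_norm_add
        (V := EuclideanSpace ℝ (Fin d)) hb 0 0
      refine h.congr (Filter.Eventually.of_forall fun v => ?_)
      simp [gs]
    have hprod := hg.norm.mul_prod hi.norm
    refine hprod.mono ?_ ?_
    · apply Continuous.aestronglyMeasurable
      unfold gs
      simp only [Function.uncurry_def]
      fun_prop
    · refine Filter.Eventually.of_forall fun p => ?_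
      obtain ⟨v, x⟩ := p
      simp only [Function.uncurry_apply_pair, norm_mul, norm_norm]
      rw [P4_gs_norm, P4_gs_norm, him, Complex.norm_exp_ofReal_mul_I, one_mul]
      simp
      ring_nf
      exact le_rfl

end Pool.Agent.K2P
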