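import Pool.Agent.Lib_helper97.K2P.Defs

/-!
# K2P, block P5a: the functional of one Gaussian
`G t = ∫ χ(x) gs (w x) t dx`. Proof: `‖gs w (nd n)‖ = exp(-2π n Im w)`, `‖gs' w t / t‖ ≤ 2π‖w‖‖gs w t‖`;
`∑ (n+1)^A exp(-2π n y) ≤ C (1 + 1/y)^(A+1)`; the hypothesis on `χ` gives everything:
`hasDerivAt_integral_of_dominated_loc_of_deriv_le`, `hasSum_integral_of_summable_integral_norm`
(or `integral_tsum`), and `LL` of one Gaussian is `F w - ee r w` (`gs w (nd n) = exp(2π i n w)`,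
`gs' w (nd n) / (2π i nd n) = w exp(2π i n w)` for `n ≥ 1`, `b 0 = 0`, `√(r²+2)² = r²+2`).
-/

set_option autoImplicit false

open scoped FourierTransform SchwartzMap

namespace Pool.Agent.K2P

open Complex MeasureTheory

/-- `u^A ≤ A! e^u` -/
theorem P5a_pow_le (A : ℕ) {u : ℝ} (hu : 0 ≤ u) : u ^ A ≤ A.factorial * Real.exp u := by
  have h1 := Real.pow_div_factorial_le_exp u hu A
  rw [div_le_iff₀ (by positivity)] at h1
  linarith

/-- the termwise bound -/
theorem P5a_term (A : ℕ) {x : ℝ} (hx : 0 < x) (n : ℕ) :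
    ((n : ℝ) + 1) ^ A * Real.exp (-(n * x)) ≤
      (1 + 4 ^ A * A.factorial * (1 / x) ^ A) * Real.exp (-(x / 2)) ^ n := by
  rw [← Real.exp_nat_mul]
  rcases Nat.eq_zero_or_pos n with rfl | hn
  · simp only [Nat.cast_zero, zero_add, one_pow, zero_mul, neg_zero, Real.exp_zero, mul_one]
    have : 0 ≤ 4 ^ A * (A.factorial : ℝ) * (1 / x) ^ A := by positivity
    linarith
  · have hn1 : (1 : ℝ) ≤ n := by exact_mod_cast hn
    have h1 : ((n : ℝ) + 1) ^ A ≤ (4 / x) ^ A * ((n : ℝ) * (x / 2)) ^ A := by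
      rw [← mul_pow]
      apply pow_le_pow_left₀ (by positivity)
      have : 4 / x * ((n : ℝ) * (x / 2)) = 2 * n := by field_simp; ring
      rw [this]; linarith
    have h2 := P5a_pow_le A (u := (n : ℝ) * (x / 2)) (by positivity)
    have h3 : Real.exp (-((n : ℝ) * x)) = Real.exp (-((n : ℝ) * (x / 2))) *
        Real.exp ((n : ℝ) * (-(x / 2))) := by
      rw [← Real.exp_add]; congr 1; ring
    have h4 : Real.exp ((n : ℝ) * (x / 2)) * Real.exp (-((n : ℝ) * (x / 2))) = 1 := by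
      rw [← Real.exp_add]; simp
    have h5 : (4 / x) ^ A = 4 ^ A * (1 / x) ^ A := by
      rw [← mul_pow]; congr 1; ring
    calc ((n : ℝ) + 1) ^ A * Real.exp (-((n : ℝ) * x))
        ≤ ((4 / x) ^ A * (A.factorial * Real.exp ((n : ℝ) * (x / 2)))) *
          (Real.exp (-((n : ℝ) * (x / 2))) * Real.exp ((n : ℝ) * (-(x / 2)))) := by
          rw [h3]
          gcongr
          exact h1.trans (by gcongr)
      _ = (4 ^ A * A.factorial * (1 / x) ^ A) *
          (Real.exp ((n : ℝ) * (x / 2)) * Real.exp (-((n : ℝ) * (x / 2)))) *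
          Real.exp ((n : ℝ) * (-(x / 2))) := by rw [h5]; ring
      _ = (4 ^ A * A.factorial * (1 / x) ^ A) * Real.exp ((n : ℝ) * (-(x / 2))) := by
          rw [h4, mul_one]
      _ ≤ _ := by
          gcongr
          linarith

/-- `∑ (n+1)^A exp(-2π n y)` -/
theorem P_geo (A : ℕ) : ∃ K : ℝ, 0 < K ∧ ∀ y : ℝ, 0 < y →
    Summable (fun n : ℕ => ((n : ℝ) + 1) ^ A * Real.exp (-(2 * Real.pi * n * y))) ∧
    ∑' n : ℕ, ((n : ℝ) + 1) ^ A * Real.exp (-(2 * Real.pi * n * y)) ≤ K * (1 + 1 / y) ^ (A + 1) := by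
  refine ⟨2 * (1 + 4 ^ A * A.factorial), by positivity, fun y hy => ?_⟩
  have hpi := Real.pi_gt_three
  obtain ⟨x, hxd⟩ : ∃ x : ℝ, x = 2 * Real.pi * y := ⟨_, rfl⟩
  have hx : 0 < x := by rw [hxd]; positivity
  have hyx : y ≤ x := by rw [hxd]; nlinarith
  have he : ∀ n : ℕ, -(2 * Real.pi * n * y) = -((n : ℝ) * x) := fun n => by rw [hxd]; ring
  simp only [he]
  have hr0 : 0 ≤ Real.exp (-(x / 2)) := (Real.exp_pos _).le
  have hr1 : Real.exp (-(x / 2)) < 1 := Real.exp_lt_one_iff.2 (by linarith)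
  have hgs := (hasSum_geometric_of_lt_one hr0 hr1).mul_left
    (1 + 4 ^ A * A.factorial * (1 / x) ^ A)
  have hsum : Summable (fun n : ℕ => ((n : ℝ) + 1) ^ A * Real.exp (-((n : ℝ) * x))) :=
    Summable.of_nonneg_of_le (fun n => by positivity) (fun n => P5a_term A hx n) hgs.summable
  refine ⟨hsum, ?_⟩
  have h1 : ∑' n : ℕ, ((n : ℝ) + 1) ^ A * Real.exp (-((n : ℝ) * x)) ≤
      (1 + 4 ^ A * A.factorial * (1 / x) ^ A) * (1 - Real.exp (-(x / 2)))⁻¹ := by
    rw [← hgs.tsum_eq]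
    exact hsum.tsum_le_tsum (fun n => P5a_term A hx n) hgs.summable
  have h2 : (1 - Real.exp (-(x / 2)))⁻¹ ≤ 1 + 2 / x := by
    rw [inv_le_comm₀ (by linarith) (by positivity)]
    have h3 : Real.exp (-(x / 2)) ≤ (1 + x / 2)⁻¹ := by
      rw [Real.exp_neg]
      apply inv_anti₀ (by positivity)
      have := Real.add_one_le_exp (x / 2)
      linarith
    have h4 : (1 + 2 / x)⁻¹ = 1 - (1 + x / 2)⁻¹ := by field_simp; ring
    rw [h4]; linarith
  have hxy : 1 / x ≤ 1 / y := one_div_le_one_div_of_le hy hyx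
  have h5 : 1 + 2 / x ≤ 2 * (1 + 1 / y) := by
    have : 2 / x = 2 * (1 / x) := by ring
    rw [this]
    have h0 : 0 ≤ 1 / x := by positivity
    linarith
  have h6 : 1 + 4 ^ A * A.factorial * (1 / x) ^ A ≤
      (1 + 4 ^ A * A.factorial) * (1 + 1 / y) ^ A := by
    have h7 : (1 / x) ^ A ≤ (1 + 1 / y) ^ A := by
      apply pow_le_pow_left₀ (by positivity)
      linarith
    have h8 : (1 : ℝ) ≤ (1 + 1 / y) ^ A := one_le_pow₀ (by
      have : 0 < 1 / y := by positivity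
      linarith)
    have h9 : 0 ≤ 4 ^ A * (A.factorial : ℝ) := by positivity
    nlinarith [mul_le_mul_of_nonneg_left h7 h9]
  calc ∑' n : ℕ, ((n : ℝ) + 1) ^ A * Real.exp (-((n : ℝ) * x))
      ≤ (1 + 4 ^ A * A.factorial * (1 / x) ^ A) * (1 - Real.exp (-(x / 2)))⁻¹ := h1
    _ ≤ ((1 + 4 ^ A * A.factorial) * (1 + 1 / y) ^ A) * (2 * (1 + 1 / y)) := by
        have : 0 ≤ (1 - Real.exp (-(x / 2)))⁻¹ := by
          rw [inv_nonneg]; linarith
        gcongr
        exact h2.trans h5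
    _ = _ := by ring

theorem P5a_nd (n : ℕ) : nd n ^ 2 = 2 * n := by
  unfold nd
  exact Real.sq_sqrt (by positivity)

theorem P5a_gs (w : ℂ) (n : ℕ) : gs w (nd n) = cexp (2 * Real.pi * I * n * w) := by
  unfold gs
  rw [← Complex.ofReal_pow, P5a_nd]
  congr 1
  push_cast
  ring

/-- one Gaussian -/
theorem P_one {a b : ℕ → ℂ} {C : ℝ} {A : ℕ} (hab : PB a b C A) (r : ℝ) {w s : ℂ} (hw : 0 < w.im)
    (hs : HasSum (fun n : ℕ => (a n + w * b n) * cexp (2 * Real.pi * I * n * w)) s) :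
    HasSum (LT a b (gs w) (gs' w)) s ∧ LL a b r (gs w) (gs' w) = s - ee r w := by
  have hterm : LT a b (gs w) (gs' w) =
      fun n : ℕ => (a n + w * b n) * cexp (2 * Real.pi * I * n * w) := by
    funext n
    unfold LT
    rw [P5a_gs]
    rcases Nat.eq_zero_or_pos n with rfl | hn
    · rw [hab.b0]; ring
    · have hn1 : (0 : ℝ) < n := by exact_mod_cast hn
      have hnd : nd n ≠ 0 := by
        unfold nd
        exact (Real.sqrt_pos.2 (by positivity)).ne'
      have hnd' : (nd n : ℂ) ≠ 0 := by exact_mod_cast hnd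
      have hpi : (Real.pi : ℂ) ≠ 0 := by exact_mod_cast Real.pi_ne_zero
      have e : gs' w (nd n) / (2 * Real.pi * I * nd n) = w * cexp (2 * Real.pi * I * n * w) := by
        unfold gs'
        rw [P5a_gs]
        have hI := Complex.I_ne_zero
        field_simp
      rw [e]; ring
  have hHS : HasSum (LT a b (gs w) (gs' w)) s := by rw [hterm]; exact hs
  refine ⟨hHS, ?_⟩
  unfold LL
  rw [hHS.tsum_eq]
  have e2 : gs w (Real.sqrt (r ^ 2 + 2)) =
      cexp (Real.pi * I * (r : ℂ) ^ 2 * w) * cexp (2 * Real.pi * I * w) := by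
    unfold gs
    rw [← Complex.ofReal_pow, Real.sq_sqrt (by positivity), ← Complex.exp_add]
    congr 1
    push_cast
    ring
  have e1 : gs w r = cexp (Real.pi * I * (r : ℂ) ^ 2 * w) := by
    unfold gs
    congr 1
    ring
  rw [e2, e1]
  unfold ee
  ring

end Pool.Agent.K2P
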