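import Pool.Agent.Lib_helper97.K2P.Defs

/-!
# K2P, block P7a: smoothing with a Gaussian
`P_conv`: `gs (δ I) ‖v‖ = exp(-πδ‖v‖²) = ∫ exp(-π‖η‖²) exp(2π i √δ ⟨v, η⟩) dη`, Fubini.
`P_sm_bd`: `‖h(ξ - √δ η)‖ (1+‖ξ‖)^N ≤ C (1+‖η‖)^N` for `δ ≤ 1`. `P_sm_lim`: dominated convergence.
`P_sm_der`: differentiation under the integral sign (`h` has a bounded Schwartz directional derivative).
-/

set_option autoImplicit false

open scoped FourierTransform SchwartzMap

namespace Pool.Agent.K2P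

open Complex MeasureTheory

/-- the bilinear form `-√δ ⟨v, w⟩` -/
noncomputable def P7a_L (d : ℕ) (δ : ℝ) :
    EuclideanSpace ℝ (Fin d) →ₗ[ℝ] EuclideanSpace ℝ (Fin d) →ₗ[ℝ] ℝ :=
  (-Real.sqrt δ) • innerₗ (EuclideanSpace ℝ (Fin d))

theorem P7a_L_apply {d : ℕ} (δ : ℝ) (v w : EuclideanSpace ℝ (Fin d)) :
    P7a_L d δ v w = -Real.sqrt δ * inner ℝ v w := by
  simp [P7a_L]

theorem P7a_gauss {d : ℕ} {δ : ℝ} (hδ : 0 < δ) (v : EuclideanSpace ℝ (Fin d)) :
    VectorFourier.fourierIntegral Real.fourierChar volume (P7a_L d δ).flip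
      (fun η : EuclideanSpace ℝ (Fin d) => cexp (-(Real.pi * (‖η‖ : ℂ) ^ 2))) v
      = gs (δ * I) ‖v‖ := by
  have h1 : VectorFourier.fourierIntegral Real.fourierChar volume (P7a_L d δ).flip
      (fun η : EuclideanSpace ℝ (Fin d) => cexp (-(Real.pi * (‖η‖ : ℂ) ^ 2))) v
      = 𝓕 (fun η : EuclideanSpace ℝ (Fin d) => cexp (-(Real.pi : ℂ) * (‖η‖ : ℂ) ^ 2))
        (-(Real.sqrt δ • v)) := by
    rw [Real.fourier_eq]
    unfold VectorFourier.fourierIntegral
    refine integral_congr_ae (Filter.Eventually.of_forall fun η => ?_)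
    simp only [LinearMap.flip_apply, P7a_L_apply, inner_neg_right, inner_smul_right,
      real_inner_comm η v]
    rw [neg_mul (Real.pi : ℂ)]
    congr 2
    ring
  have hre : 0 < ((Real.pi : ℝ) : ℂ).re := by
    rw [Complex.ofReal_re]
    exact Real.pi_pos
  rw [h1, fourier_gaussian_innerProductSpace hre]
  have hpi : (Real.pi : ℂ) ≠ 0 := by exact_mod_cast Real.pi_ne_zero
  rw [div_self hpi, one_cpow, one_mul, gs]
  congr 1
  rw [norm_neg, norm_smul, Real.norm_eq_abs, abs_of_nonneg (Real.sqrt_nonneg δ)]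
  have hs : ((Real.sqrt δ : ℝ) : ℂ) ^ 2 = (δ : ℂ) := by
    rw [← Complex.ofReal_pow, Real.sq_sqrt hδ.le]
  rw [Complex.ofReal_mul, mul_pow, hs]
  have hI : I ^ 2 = -1 := Complex.I_sq
  field_simp
  linear_combination (-(δ : ℂ)) * (‖v‖ : ℂ) ^ 2 * Complex.I_sq

theorem P_conv {d : ℕ} (f : 𝓢(EuclideanSpace ℝ (Fin d), ℂ)) {δ : ℝ} (hδ : 0 < δ)
    (ξ : EuclideanSpace ℝ (Fin d)) :
    𝓕 (fun v : EuclideanSpace ℝ (Fin d) => f v * gs (δ * I) ‖v‖) ξ =
      sm δ (𝓕 (f : EuclideanSpace ℝ (Fin d) → ℂ)) ξ := by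
  set F : EuclideanSpace ℝ (Fin d) → ℂ :=
    fun v => Real.fourierChar (-inner ℝ v ξ) • f v with hF
  set g : EuclideanSpace ℝ (Fin d) → ℂ := fun η => cexp (-(Real.pi * (‖η‖ : ℂ) ^ 2)) with hg
  have hFi : Integrable F := by
    have := (Real.fourierIntegral_convergent_iff (μ := volume)
      (f := (f : EuclideanSpace ℝ (Fin d) → ℂ)) ξ).2 f.integrable
    exact this
  have hgi : Integrable g := by
    have hre : 0 < ((Real.pi : ℝ) : ℂ).re := by
      rw [Complex.ofReal_re]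
      exact Real.pi_pos
    have := GaussianFourier.integrable_cexp_neg_mul_sq_norm_add hre 0
      (0 : EuclideanSpace ℝ (Fin d))
    simpa [hg] using this
  have hL : Continuous fun p : EuclideanSpace ℝ (Fin d) × EuclideanSpace ℝ (Fin d) =>
      P7a_L d δ p.1 p.2 := by
    simp only [P7a_L_apply]
    fun_prop
  have key := VectorFourier.integral_fourierIntegral_smul_eq_flip (μ := volume) (ν := volume)
    (L := P7a_L d δ) (f := F) (g := g) Real.continuous_fourierChar hL hFi hgi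
  have hl : ∀ η, VectorFourier.fourierIntegral Real.fourierChar volume (P7a_L d δ) F η
      = 𝓕 (f : EuclideanSpace ℝ (Fin d) → ℂ) (ξ - Real.sqrt δ • η) := by
    intro η
    rw [Real.fourier_eq]
    unfold VectorFourier.fourierIntegral
    refine integral_congr_ae (Filter.Eventually.of_forall fun v => ?_)
    simp only [hF, P7a_L_apply, inner_sub_right, inner_smul_right]
    rw [smul_smul, ← AddChar.map_add_eq_mul]
    congr 2
    ring
  unfold sm
  have hsm : (∫ v : EuclideanSpace ℝ (Fin d), cexp (-(Real.pi * (‖v‖ : ℂ) ^ 2)) *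
      𝓕 (f : EuclideanSpace ℝ (Fin d) → ℂ) (ξ - Real.sqrt δ • v)) =
      ∫ η, (VectorFourier.fourierIntegral Real.fourierChar volume (P7a_L d δ) F η) • (g η) := by
    refine integral_congr_ae (Filter.Eventually.of_forall fun η => ?_)
    simp only [hl η, smul_eq_mul, hg]
    ring
  rw [hsm, key, Real.fourier_eq]
  refine integral_congr_ae (Filter.Eventually.of_forall fun v => ?_)
  simp only [hF, hg]
  rw [P7a_gauss hδ v]
  simp only [Circle.smul_def, smul_eq_mul]
  ring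

end Pool.Agent.K2P
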