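import Pool.Agent.Lib_helper97.K2P.Defs

/-!
# K2P, block P7b: smoothing with a Gaussian
`P_conv`: `gs (δ I) ‖v‖ = exp(-πδ‖v‖²) = ∫ exp(-π‖η‖²) exp(2π i √δ ⟨v, η⟩) dη`, Fubini.
`P_sm_bd`: `‖h(ξ - √δ η)‖ (1+‖ξ‖)^N ≤ C (1+‖η‖)^N` for `δ ≤ 1`. `P_sm_lim`: dominated convergence.
`P_sm_der`: differentiation under the integral sign (`h` has a bounded Schwartz directional derivative).
-/

set_option autoImplicit false

open scoped FourierTransform SchwartzMap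

namespace Pool.Agent.K2P

open Complex MeasureTheory

theorem P7b_norm_g {d : ℕ} (v : EuclideanSpace ℝ (Fin d)) :
    ‖cexp (-(Real.pi * (‖v‖ : ℂ) ^ 2))‖ = Real.exp (-(Real.pi * ‖v‖ ^ 2)) := by
  rw [Complex.norm_exp]
  congr 1
  have : (-(Real.pi * (‖v‖ : ℂ) ^ 2) : ℂ) = ((-(Real.pi * ‖v‖ ^ 2) : ℝ) : ℂ) := by
    push_cast; ring
  rw [this, Complex.ofReal_re]

theorem P7b_int {d : ℕ} {b : ℝ} (hb : 0 < b) :
    Integrable (fun v : EuclideanSpace ℝ (Fin d) => Real.exp (-(b * ‖v‖ ^ 2))) := by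
  have h := GaussianFourier.integrable_cexp_neg_mul_sq_norm_add (V := EuclideanSpace ℝ (Fin d))
    (b := (b : ℂ)) (by simpa using hb) 0 0
  refine (h.norm).congr (Filter.Eventually.of_forall fun v => ?_)
  simp only
  rw [Complex.norm_exp]
  congr 1
  have : (-(b : ℂ) * (‖v‖ : ℂ) ^ 2 + 0 * ((inner ℝ (0 : EuclideanSpace ℝ (Fin d)) v : ℝ) : ℂ)) =
      ((-(b * ‖v‖ ^ 2) : ℝ) : ℂ) := by
    push_cast; ring
  rw [this, Complex.ofReal_re]

theorem P7b_cont_g {d : ℕ} :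
    Continuous (fun v : EuclideanSpace ℝ (Fin d) => cexp (-(Real.pi * (‖v‖ : ℂ) ^ 2))) := by
  fun_prop

/-- the Gaussian has integral one -/
theorem P7b_one {d : ℕ} :
    ∫ v : EuclideanSpace ℝ (Fin d), cexp (-(Real.pi * (‖v‖ : ℂ) ^ 2)) = 1 := by
  have h := GaussianFourier.integral_cexp_neg_mul_sq_norm (V := EuclideanSpace ℝ (Fin d))
    (b := (Real.pi : ℂ)) (by simpa using Real.pi_pos)
  have h2 : (∫ v : EuclideanSpace ℝ (Fin d), cexp (-(Real.pi * (‖v‖ : ℂ) ^ 2))) =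
      ∫ v : EuclideanSpace ℝ (Fin d), cexp (-(Real.pi : ℂ) * (‖v‖ : ℂ) ^ 2) := by
    congr 1
    funext v
    congr 1
    ring
  rw [h2, h, div_self, Complex.one_cpow]
  exact_mod_cast Real.pi_ne_zero

/-- decay of a Schwartz function -/
theorem P7b_decay {d : ℕ} (h : 𝓢(EuclideanSpace ℝ (Fin d), ℂ)) (N : ℕ) :
    ∃ C : ℝ, 0 ≤ C ∧ ∀ x, (1 + ‖x‖) ^ N * ‖h x‖ ≤ C := by
  refine ⟨2 ^ N * (Finset.Iic (N, 0)).sup
    (fun m => SchwartzMap.seminorm ℝ m.1 m.2) h, by positivity, fun x => ?_⟩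
  have := SchwartzMap.one_add_le_sup_seminorm_apply (𝕜 := ℝ) (m := (N, 0)) (k := N) (n := 0)
    le_rfl le_rfl h x
  simpa using this

theorem P7b_split {d : ℕ} (ξ v : EuclideanSpace ℝ (Fin d)) {δ : ℝ} (hd : 0 < δ) (hd1 : δ ≤ 1) :
    1 + ‖ξ‖ ≤ (1 + ‖ξ - Real.sqrt δ • v‖) * (1 + ‖v‖) := by
  have h1 : ‖ξ‖ ≤ ‖ξ - Real.sqrt δ • v‖ + ‖Real.sqrt δ • v‖ := by
    calc ‖ξ‖ = ‖(ξ - Real.sqrt δ • v) + Real.sqrt δ • v‖ := by rw [sub_add_cancel]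
      _ ≤ _ := norm_add_le _ _
  have h2 : ‖Real.sqrt δ • v‖ ≤ ‖v‖ := by
    rw [norm_smul, Real.norm_of_nonneg (Real.sqrt_nonneg δ)]
    have : Real.sqrt δ ≤ 1 := by
      rw [Real.sqrt_le_one]
      exact hd1
    nlinarith [norm_nonneg v]
  nlinarith [norm_nonneg v, norm_nonneg (ξ - Real.sqrt δ • v),
    mul_nonneg (norm_nonneg v) (norm_nonneg (ξ - Real.sqrt δ • v))]

theorem P7b_poly (N : ℕ) (s : ℝ) (hs : 0 ≤ s) :
    Real.exp (-(Real.pi * s ^ 2)) * (1 + s) ^ N ≤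
      ((N.factorial : ℝ) * Real.exp 2) * Real.exp (-((Real.pi - 1) * s ^ 2)) := by
  have h1 : (1 + s) ^ N ≤ (N.factorial : ℝ) * Real.exp (1 + s) := by
    have := Real.pow_div_factorial_le_exp (1 + s) (by linarith) N
    rw [div_le_iff₀ (by positivity)] at this
    linarith
  have h2 : Real.exp (1 + s) ≤ Real.exp (2 + s ^ 2) := by
    apply Real.exp_le_exp.mpr
    nlinarith [sq_nonneg (s - 1 / 2)]
  calc Real.exp (-(Real.pi * s ^ 2)) * (1 + s) ^ N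
      ≤ Real.exp (-(Real.pi * s ^ 2)) * ((N.factorial : ℝ) * Real.exp (2 + s ^ 2)) := by
        apply mul_le_mul_of_nonneg_left _ (Real.exp_nonneg _)
        exact h1.trans (mul_le_mul_of_nonneg_left h2 (by positivity))
    _ = ((N.factorial : ℝ) * Real.exp 2) * Real.exp (-((Real.pi - 1) * s ^ 2)) := by
        have e1 : Real.exp (2 + s ^ 2) = Real.exp 2 * Real.exp (s ^ 2) := Real.exp_add _ _
        have e2 : Real.exp (-((Real.pi - 1) * s ^ 2)) =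
            Real.exp (-(Real.pi * s ^ 2)) * Real.exp (s ^ 2) := by
          rw [← Real.exp_add]
          congr 1
          ring
        rw [e1, e2]
        ring

theorem P_sm_bd {d : ℕ} (h : 𝓢(EuclideanSpace ℝ (Fin d), ℂ)) (N : ℕ) :
    ∃ C : ℝ, 0 ≤ C ∧ ∀ δ : ℝ, 0 < δ → δ ≤ 1 → ∀ ξ, ‖sm δ h ξ‖ ≤ C / (1 + ‖ξ‖) ^ N := by
  obtain ⟨C1, hC1, hb⟩ := P7b_decay h N
  have hpi : 0 < Real.pi - 1 := by linarith [Real.pi_gt_three]
  set G : EuclideanSpace ℝ (Fin d) → ℝ := fun v =>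
    ((N.factorial : ℝ) * Real.exp 2) * Real.exp (-((Real.pi - 1) * ‖v‖ ^ 2)) with hG
  have hGi : Integrable G := (P7b_int hpi).const_mul _
  have hG0 : 0 ≤ ∫ v, G v := integral_nonneg fun v => by
    simp only [hG, Pi.zero_apply]
    positivity
  refine ⟨C1 * ∫ v, G v, mul_nonneg hC1 hG0, fun δ hd hd1 ξ => ?_⟩
  have hx : 0 < (1 + ‖ξ‖) ^ N := by positivity
  have key : ∀ v : EuclideanSpace ℝ (Fin d),
      ‖cexp (-(Real.pi * (‖v‖ : ℂ) ^ 2)) * h (ξ - Real.sqrt δ • v)‖ ≤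
        C1 / (1 + ‖ξ‖) ^ N * G v := by
    intro v
    rw [norm_mul, P7b_norm_g]
    have h1 := hb (ξ - Real.sqrt δ • v)
    have h2 : (1 + ‖ξ‖) ^ N ≤ (1 + ‖ξ - Real.sqrt δ • v‖) ^ N * (1 + ‖v‖) ^ N := by
      rw [← mul_pow]
      exact pow_le_pow_left₀ (by positivity) (P7b_split ξ v hd hd1) N
    have h3 : ‖h (ξ - Real.sqrt δ • v)‖ * (1 + ‖ξ‖) ^ N ≤ C1 * (1 + ‖v‖) ^ N := by
      calc ‖h (ξ - Real.sqrt δ • v)‖ * (1 + ‖ξ‖) ^ N
          ≤ ‖h (ξ - Real.sqrt δ • v)‖ *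
            ((1 + ‖ξ - Real.sqrt δ • v‖) ^ N * (1 + ‖v‖) ^ N) :=
            mul_le_mul_of_nonneg_left h2 (norm_nonneg _)
        _ = ((1 + ‖ξ - Real.sqrt δ • v‖) ^ N * ‖h (ξ - Real.sqrt δ • v)‖) *
            (1 + ‖v‖) ^ N := by ring
        _ ≤ C1 * (1 + ‖v‖) ^ N := mul_le_mul_of_nonneg_right h1 (by positivity)
    have h4 : ‖h (ξ - Real.sqrt δ • v)‖ ≤ C1 / (1 + ‖ξ‖) ^ N * (1 + ‖v‖) ^ N := by
      rw [div_mul_eq_mul_div, le_div_iff₀ hx]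
      exact h3
    calc Real.exp (-(Real.pi * ‖v‖ ^ 2)) * ‖h (ξ - Real.sqrt δ • v)‖
        ≤ Real.exp (-(Real.pi * ‖v‖ ^ 2)) * (C1 / (1 + ‖ξ‖) ^ N * (1 + ‖v‖) ^ N) :=
          mul_le_mul_of_nonneg_left h4 (Real.exp_nonneg _)
      _ = C1 / (1 + ‖ξ‖) ^ N * (Real.exp (-(Real.pi * ‖v‖ ^ 2)) * (1 + ‖v‖) ^ N) := by ring
      _ ≤ C1 / (1 + ‖ξ‖) ^ N * G v :=
          mul_le_mul_of_nonneg_left (P7b_poly N ‖v‖ (norm_nonneg v)) (by positivity)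
  calc ‖sm δ h ξ‖ ≤ ∫ v, C1 / (1 + ‖ξ‖) ^ N * G v := by
        refine norm_integral_le_of_norm_le (hGi.const_mul _) (Filter.Eventually.of_forall key)
    _ = C1 / (1 + ‖ξ‖) ^ N * ∫ v, G v := integral_const_mul _ _
    _ = C1 * (∫ v, G v) / (1 + ‖ξ‖) ^ N := by ring

theorem P7b_meas {d : ℕ} (h : 𝓢(EuclideanSpace ℝ (Fin d), ℂ)) (δ : ℝ)
    (ξ : EuclideanSpace ℝ (Fin d)) :
    Continuous (fun v : EuclideanSpace ℝ (Fin d) =>
      cexp (-(Real.pi * (‖v‖ : ℂ) ^ 2)) * h (ξ - Real.sqrt δ • v)) := by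
  refine P7b_cont_g.mul (h.continuous.comp ?_)
  fun_prop

theorem P7b_dom {d : ℕ} (h : 𝓢(EuclideanSpace ℝ (Fin d), ℂ)) :
    ∃ C : ℝ, 0 ≤ C ∧ ∀ v x : EuclideanSpace ℝ (Fin d),
      ‖cexp (-(Real.pi * (‖v‖ : ℂ) ^ 2)) * h x‖ ≤ C * Real.exp (-(Real.pi * ‖v‖ ^ 2)) := by
  obtain ⟨C, hC, hb⟩ := P7b_decay h 0
  refine ⟨C, hC, fun v x => ?_⟩
  rw [norm_mul, P7b_norm_g, mul_comm]
  refine mul_le_mul_of_nonneg_right ?_ (Real.exp_nonneg _)
  simpa using hb x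

theorem P_sm_lim {d : ℕ} (h : 𝓢(EuclideanSpace ℝ (Fin d), ℂ)) (ξ : EuclideanSpace ℝ (Fin d)) :
    Filter.Tendsto (fun δ : ℝ => sm δ h ξ) (nhdsWithin 0 (Set.Ioi 0)) (nhds (h ξ)) := by
  obtain ⟨C, hC, hdom⟩ := P7b_dom h
  have hlim : (∫ v : EuclideanSpace ℝ (Fin d), cexp (-(Real.pi * (‖v‖ : ℂ) ^ 2)) * h ξ) = h ξ := by
    rw [integral_mul_const, P7b_one, one_mul]
  rw [← hlim]
  unfold sm
  refine tendsto_integral_filter_of_dominated_convergence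
    (fun v : EuclideanSpace ℝ (Fin d) => C * Real.exp (-(Real.pi * ‖v‖ ^ 2)))
    (Filter.Eventually.of_forall fun δ => (P7b_meas h δ ξ).aestronglyMeasurable)
    (Filter.Eventually.of_forall fun δ => Filter.Eventually.of_forall fun v => hdom v _)
    ((P7b_int Real.pi_pos).const_mul C)
    (Filter.Eventually.of_forall fun v => ?_)
  have hc : Continuous (fun δ : ℝ => cexp (-(Real.pi * (‖v‖ : ℂ) ^ 2)) *
      h (ξ - Real.sqrt δ • v)) := by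
    refine continuous_const.mul (h.continuous.comp ?_)
    fun_prop
  have h0 := (hc.tendsto 0).mono_left (nhdsWithin_le_nhds (s := Set.Ioi (0 : ℝ)))
  simpa using h0

theorem P_sm_der {d : ℕ} (h : 𝓢(EuclideanSpace ℝ (Fin d), ℂ)) (e : EuclideanSpace ℝ (Fin d)) :
    ∃ h' : 𝓢(EuclideanSpace ℝ (Fin d), ℂ),
      (∀ t : ℝ, HasDerivAt (fun t : ℝ => h (t • e)) (h' (t • e)) t) ∧
      ∀ δ : ℝ, 0 < δ → ∀ t : ℝ, HasDerivAt (fun t : ℝ => sm δ h (t • e)) (sm δ h' (t • e)) t := by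
  set h' : 𝓢(EuclideanSpace ℝ (Fin d), ℂ) :=
    SchwartzMap.evalCLM ℝ (EuclideanSpace ℝ (Fin d)) ℂ e
      (SchwartzMap.fderivCLM ℝ (EuclideanSpace ℝ (Fin d)) ℂ h) with hh'
  have hval : ∀ x, h' x = fderiv ℝ h x e := fun x => rfl
  have hder : ∀ (y : EuclideanSpace ℝ (Fin d)) (t : ℝ),
      HasDerivAt (fun t : ℝ => h (t • e - y)) (h' (t • e - y)) t := by
    intro y t
    rw [hval]
    have h1 : HasFDerivAt h (fderiv ℝ h (t • e - y)) (t • e - y) :=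
      (h.differentiable).differentiableAt.hasFDerivAt
    have h2 : HasDerivAt (fun t : ℝ => t • e - y) e t := by
      have := ((hasDerivAt_id t).smul_const e).sub_const y
      simpa using this
    exact h1.comp_hasDerivAt t h2
  refine ⟨h', fun t => ?_, fun δ hd t => ?_⟩
  · simpa using hder 0 t
  · obtain ⟨C, hC, hdom⟩ := P7b_dom h
    obtain ⟨C', hC', hdom'⟩ := P7b_dom h'
    have hmeas : ∀ s : ℝ, AEStronglyMeasurable (fun v : EuclideanSpace ℝ (Fin d) =>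
        cexp (-(Real.pi * (‖v‖ : ℂ) ^ 2)) * h (s • e - Real.sqrt δ • v)) volume := fun s =>
      (P7b_meas h δ (s • e)).aestronglyMeasurable
    have := hasDerivAt_integral_of_dominated_loc_of_deriv_le (μ := volume) (𝕜 := ℝ)
      (F := fun (s : ℝ) (v : EuclideanSpace ℝ (Fin d)) =>
        cexp (-(Real.pi * (‖v‖ : ℂ) ^ 2)) * h (s • e - Real.sqrt δ • v))
      (F' := fun (s : ℝ) (v : EuclideanSpace ℝ (Fin d)) =>
        cexp (-(Real.pi * (‖v‖ : ℂ) ^ 2)) * h' (s • e - Real.sqrt δ • v))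
      (x₀ := t) (s := Set.univ)
      (bound := fun v : EuclideanSpace ℝ (Fin d) => C' * Real.exp (-(Real.pi * ‖v‖ ^ 2)))
      Filter.univ_mem
      (Filter.Eventually.of_forall hmeas)
      (((P7b_int Real.pi_pos).const_mul C).mono' (hmeas t)
        (Filter.Eventually.of_forall fun v => hdom v _))
      ((P7b_meas h' δ (t • e)).aestronglyMeasurable)
      (Filter.Eventually.of_forall fun v s _ => hdom' v _)
      ((P7b_int Real.pi_pos).const_mul C')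
      (Filter.Eventually.of_forall fun v s _ => (hder (Real.sqrt δ • v) s).const_mul _)
    exact this.2

end Pool.Agent.K2P
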