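import Pool.Agent.Lib_helper97.K2P.Defs

/-!
# K2P, block P8: the limit under the functional
Proof: `tendsto_tsum_of_dominated_convergence`, bound `C (n+1)^A K (1 + 1/...) / (1 + nd n)^(2A+4)`;
`(1 + nd n)^2 ≥ 1 + n`; for `n ≥ 1` `nd n ≥ 1`, for `n = 0` the term with `b` is `0`.
-/

set_option autoImplicit false

open scoped FourierTransform SchwartzMap

namespace Pool.Agent.K2P

open Complex MeasureTheory

theorem P8_nd_nonneg (n : ℕ) : 0 ≤ nd n := Real.sqrt_nonneg _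

theorem P8_nd_sq (n : ℕ) : nd n ^ 2 = 2 * n := Real.sq_sqrt (by positivity)

/-- `(1 + nd n)^(2A+4) ≥ (n+1)^(A+2)` -/
theorem P8_pow (A n : ℕ) : ((n : ℝ) + 1) ^ (A + 2) ≤ (1 + nd n) ^ (2 * A + 4) := by
  have h1 : (n : ℝ) + 1 ≤ (1 + nd n) ^ 2 := by
    have h2 := P8_nd_sq n
    have h3 := P8_nd_nonneg n
    have h4 : (0 : ℝ) ≤ n := Nat.cast_nonneg n
    nlinarith
  have h5 : (1 + nd n) ^ (2 * A + 4) = ((1 + nd n) ^ 2) ^ (A + 2) := by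
    rw [← pow_mul]
    congr 1
  rw [h5]
  exact pow_le_pow_left₀ (by positivity) h1 (A + 2)

theorem P8_one_le (n : ℕ) (hn : n ≠ 0) : 1 ≤ ‖(2 * Real.pi * I * (nd n : ℂ) : ℂ)‖ := by
  have h1 : ‖(2 * Real.pi * I * (nd n : ℂ) : ℂ)‖ = 2 * Real.pi * nd n := by
    rw [norm_mul, norm_mul, norm_mul, Complex.norm_I, Complex.norm_real, Complex.norm_real,
      Real.norm_eq_abs, Real.norm_eq_abs, abs_of_pos Real.pi_pos,
      abs_of_nonneg (P8_nd_nonneg n)]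
    norm_num
  rw [h1]
  have h2 : (1 : ℝ) ≤ nd n := by
    unfold nd
    rw [Real.one_le_sqrt]
    have : (1 : ℝ) ≤ n := by exact_mod_cast Nat.one_le_iff_ne_zero.mpr hn
    linarith
  have h3 := Real.pi_gt_three
  nlinarith

/-- the bound for the terms -/
theorem P8_term {a b : ℕ → ℂ} {C : ℝ} {A : ℕ} (hab : PB a b C A) {K : ℝ} (hK : 0 ≤ K)
    (G G' : ℝ → ℂ) (hG : ∀ t : ℝ, 0 ≤ t → ‖G t‖ ≤ K / (1 + t) ^ (2 * A + 4))
    (hG' : ∀ t : ℝ, 0 ≤ t → ‖G' t‖ ≤ K / (1 + t) ^ (2 * A + 4)) (n : ℕ) :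
    ‖LT a b G G' n‖ ≤ 2 * C * K * (1 / ((n : ℝ) + 1) ^ 2) := by
  have hn1 : (0 : ℝ) < (n : ℝ) + 1 := by positivity
  have hC : 0 ≤ C := by
    have h := hab.ha 0
    simp only [Nat.cast_zero, zero_add, one_pow, mul_one] at h
    exact (norm_nonneg _).trans h
  have hq : K / (1 + nd n) ^ (2 * A + 4) ≤ K / ((n : ℝ) + 1) ^ (A + 2) :=
    div_le_div_of_nonneg_left hK (by positivity) (P8_pow A n)
  have hmain : ∀ (u x : ℂ), ‖u‖ ≤ C * ((n : ℝ) + 1) ^ A →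
      ‖x‖ ≤ K / (1 + nd n) ^ (2 * A + 4) → ‖u * x‖ ≤ C * K * (1 / ((n : ℝ) + 1) ^ 2) := by
    intro u x hu hx
    rw [norm_mul]
    calc ‖u‖ * ‖x‖ ≤ (C * ((n : ℝ) + 1) ^ A) * (K / ((n : ℝ) + 1) ^ (A + 2)) :=
          mul_le_mul hu (hx.trans hq) (norm_nonneg _) (by positivity)
      _ = C * K * (1 / ((n : ℝ) + 1) ^ 2) := by
          rw [pow_add]
          field_simp
  have h1 := hmain (a n) (G (nd n)) (hab.ha n) (hG _ (P8_nd_nonneg n))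
  have h2 : ‖b n * (G' (nd n) / (2 * Real.pi * I * nd n))‖ ≤ C * K * (1 / ((n : ℝ) + 1) ^ 2) := by
    by_cases hn : n = 0
    · subst hn
      rw [hab.b0, zero_mul, norm_zero]
      positivity
    · refine hmain (b n) _ (hab.hb n) ?_
      rw [norm_div]
      have h3 := P8_one_le n hn
      refine (div_le_self (norm_nonneg _) h3).trans (hG' _ (P8_nd_nonneg n))
  unfold LT
  calc ‖a n * G (nd n) + b n * (G' (nd n) / (2 * Real.pi * I * nd n))‖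
      ≤ ‖a n * G (nd n)‖ + ‖b n * (G' (nd n) / (2 * Real.pi * I * nd n))‖ := norm_add_le _ _
    _ ≤ C * K * (1 / ((n : ℝ) + 1) ^ 2) + C * K * (1 / ((n : ℝ) + 1) ^ 2) := add_le_add h1 h2
    _ = 2 * C * K * (1 / ((n : ℝ) + 1) ^ 2) := by ring

theorem P_lim {a b : ℕ → ℂ} {C : ℝ} {A : ℕ} (hab : PB a b C A) (r : ℝ) (hr : 0 ≤ r)
    {G G' : ℝ → ℝ → ℂ} {g g' : ℝ → ℂ} {K : ℝ}
    (hG : ∀ δ : ℝ, 0 < δ → δ ≤ 1 → ∀ t : ℝ, 0 ≤ t → ‖G δ t‖ ≤ K / (1 + t) ^ (2 * A + 4))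
    (hG' : ∀ δ : ℝ, 0 < δ → δ ≤ 1 → ∀ t : ℝ, 0 ≤ t → ‖G' δ t‖ ≤ K / (1 + t) ^ (2 * A + 4))
    (hg : ∀ t : ℝ, 0 ≤ t → Filter.Tendsto (fun δ => G δ t) (nhdsWithin 0 (Set.Ioi 0)) (nhds (g t)))
    (hg' : ∀ t : ℝ, 0 ≤ t →
      Filter.Tendsto (fun δ => G' δ t) (nhdsWithin 0 (Set.Ioi 0)) (nhds (g' t))) :
    Filter.Tendsto (fun δ => LL a b r (G δ) (G' δ)) (nhdsWithin 0 (Set.Ioi 0))
      (nhds (LL a b r g g')) := by
  have hK : 0 ≤ K := by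
    have h := hG 1 one_pos le_rfl 0 le_rfl
    simp only [add_zero, one_pow, div_one] at h
    exact (norm_nonneg _).trans h
  have hsum : Summable (fun n : ℕ => 2 * C * K * (1 / ((n : ℝ) + 1) ^ 2)) := by
    apply Summable.mul_left
    have h1 : Summable (fun n : ℕ => 1 / (n : ℝ) ^ 2) :=
      Real.summable_one_div_nat_pow.mpr one_lt_two
    have h2 := (summable_nat_add_iff 1).mpr h1
    refine h2.congr (fun n => ?_)
    push_cast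
    rfl
  have hev : ∀ᶠ δ in nhdsWithin (0 : ℝ) (Set.Ioi 0), 0 < δ ∧ δ ≤ 1 := by
    have h1 : ∀ᶠ δ in nhdsWithin (0 : ℝ) (Set.Ioi 0), (0 : ℝ) < δ := eventually_mem_nhdsWithin
    have h2 : ∀ᶠ δ in nhdsWithin (0 : ℝ) (Set.Ioi 0), δ ≤ (1 : ℝ) :=
      nhdsWithin_le_nhds (eventually_le_nhds one_pos)
    exact h1.and h2
  have htsum : Filter.Tendsto (fun δ => ∑' n, LT a b (G δ) (G' δ) n)
      (nhdsWithin 0 (Set.Ioi 0)) (nhds (∑' n, LT a b g g' n)) := by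
    refine tendsto_tsum_of_dominated_convergence hsum (fun n => ?_) ?_
    · unfold LT
      exact ((hg _ (P8_nd_nonneg n)).const_mul (a n)).add
        (((hg' _ (P8_nd_nonneg n)).div_const _).const_mul (b n))
    · filter_upwards [hev] with δ hδ n
      exact P8_term hab hK (G δ) (G' δ) (hG δ hδ.1 hδ.2) (hG' δ hδ.1 hδ.2) n
  unfold LL
  exact (htsum.sub (hg r hr)).add (hg _ (Real.sqrt_nonneg _))

end Pool.Agent.K2P
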